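import Mathlib

/-!
# A lattice lemma
-/

set_option autoImplicit false

namespace Pool.Agent.H173R3.ZT

/-- If a lattice `D` contains a nonzero vector supported in every set of `d + 1` coordinates then
it meets every lattice of rank at least `d + 1`. -/
theorem exists_mem_inf {n d : ℕ} (D Λ : Submodule ℤ (Fin n → ℤ))
    (hD : ∀ J : Finset (Fin n), J.card = d + 1 → ∃ χ ∈ D, χ ≠ 0 ∧ ∀ j, j ∉ J → χ j = 0)
    (hΛ : d + 1 ≤ Module.finrank ℤ Λ) : ∃ χ ∈ Λ, χ ∈ D ∧ χ ≠ 0 := by
  classical
  -- a maximal set of coordinates independent modulo `D`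
  let Q : Finset (Fin n) → Prop := fun J => ∀ χ ∈ D, (∀ j, j ∉ J → χ j = 0) → χ = 0
  have hQ0 : Q ∅ := by
    intro χ _ h
    funext j
    exact h j (Finset.notMem_empty j)
  obtain ⟨J, hJmem, hJmax⟩ := Finset.exists_max_image
    ((Finset.univ : Finset (Finset (Fin n))).filter Q) Finset.card
    ⟨∅, Finset.mem_filter.2 ⟨Finset.mem_univ _, hQ0⟩⟩
  have hJ : Q J := (Finset.mem_filter.1 hJmem).2
  have hcard : J.card ≤ d := by
    by_contra hcon
    obtain ⟨J', hJ', hJ'c⟩ := Finset.exists_subset_card_eq (Nat.succ_le_of_lt (not_le.1 hcon))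
    obtain ⟨χ, h1, h2, h3⟩ := hD J' hJ'c
    exact h2 (hJ χ h1 fun j hj => h3 j fun hj' => hj (hJ' hj'))
  have hδ : ∀ k : Fin n, ∃ δ : Fin n → ℤ, k ∉ J →
      (δ ∈ D ∧ δ k ≠ 0 ∧ ∀ j, j ∉ J → j ≠ k → δ j = 0) := by
    intro k
    by_cases hk : k ∈ J
    · exact ⟨0, fun h => absurd hk h⟩
    · have h1 : ¬ Q (insert k J) := by
        intro hq
        have h2 := hJmax (insert k J) (Finset.mem_filter.2 ⟨Finset.mem_univ _, hq⟩)
        rw [Finset.card_insert_of_notMem hk] at h2
        omega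
      simp only [Q] at h1
      push Not at h1
      obtain ⟨δ, h2, h3, h4⟩ := h1
      refine ⟨δ, fun _ => ⟨h2, ?_, ?_⟩⟩
      · intro h5
        refine h4 (hJ δ h2 fun j hj => ?_)
        by_cases hjk : j = k
        · rw [hjk, h5]
        · exact h3 j fun h6 => (Finset.mem_insert.1 h6).elim hjk hj
      · intro j hj hjk
        exact h3 j fun h6 => (Finset.mem_insert.1 h6).elim hjk hj
  choose δ hδ using hδ
  set R : Finset (Fin n) := Finset.univ \ J with hR
  have hRmem : ∀ k, k ∈ R ↔ k ∉ J := fun k => by simp [hR]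
  set N : ℤ := ∏ k ∈ R, δ k k with hN
  have hN0 : N ≠ 0 := Finset.prod_ne_zero_iff.2 fun k hk => (hδ k ((hRmem k).1 hk)).2.1
  set m : Fin n → ℤ := fun k => ∏ l ∈ R.erase k, δ l l with hm
  have hmk : ∀ k ∈ R, m k * δ k k = N := fun k hk => by
    rw [hm, hN]
    exact Finset.prod_erase_mul _ _ hk
  -- the projection
  let φ : Λ →ₗ[ℤ] (J → ℤ) :=
    { toFun := fun χ j => N * (χ : Fin n → ℤ) j - ∑ k ∈ R, m k * (χ : Fin n → ℤ) k * δ k j
      map_add' := by
        intro a b
        funext j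
        simp only [Submodule.coe_add, Pi.add_apply]
        have : ∀ k, m k * ((a : Fin n → ℤ) k + (b : Fin n → ℤ) k) * δ k j =
            m k * (a : Fin n → ℤ) k * δ k j + m k * (b : Fin n → ℤ) k * δ k j := fun k => by ring
        simp only [this, Finset.sum_add_distrib]
        ring
      map_smul' := by
        intro c a
        funext j
        simp only [Submodule.coe_smul, Pi.smul_apply, smul_eq_mul, RingHom.id_apply]
        have : ∀ k, m k * (c * (a : Fin n → ℤ) k) * δ k j =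
            c * (m k * (a : Fin n → ℤ) k * δ k j) := fun k => by ring
        simp only [this, ← Finset.mul_sum]
        ring }
  have hφ : ¬ Function.Injective φ := by
    intro hinj
    have h1 := LinearMap.finrank_le_finrank_of_injective hinj
    rw [Module.finrank_fintype_fun_eq_card, Fintype.card_coe] at h1
    omega
  have hker : ∃ χ : Λ, φ χ = 0 ∧ χ ≠ 0 := by
    by_contra hcon
    push Not at hcon
    exact hφ ((injective_iff_map_eq_zero φ).2 hcon)
  obtain ⟨χ, hχ, hχ0⟩ := hker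
  have heq : N • (χ : Fin n → ℤ) = ∑ k ∈ R, (m k * (χ : Fin n → ℤ) k) • δ k := by
    funext j
    simp only [Pi.smul_apply, smul_eq_mul, Finset.sum_apply]
    by_cases hj : j ∈ J
    · have h1 := congrFun hχ ⟨j, hj⟩
      have h2 : N * (χ : Fin n → ℤ) j - ∑ k ∈ R, m k * (χ : Fin n → ℤ) k * δ k j = 0 := h1
      linarith
    · have hjR : j ∈ R := (hRmem j).2 hj
      rw [Finset.sum_eq_single_of_mem j hjR]
      · rw [← hmk j hjR]
        ring
      · intro k hk hkj
        rw [(hδ k ((hRmem k).1 hk)).2.2 j hj (Ne.symm hkj), mul_zero]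
  refine ⟨N • (χ : Fin n → ℤ), Λ.smul_mem _ χ.2, ?_, ?_⟩
  · rw [heq]
    exact D.sum_mem fun k hk => D.smul_mem _ (hδ k ((hRmem k).1 hk)).1
  · intro h
    rcases smul_eq_zero.1 h with h | h
    · exact hN0 h
    · exact hχ0 (Subtype.ext h)

end Pool.Agent.H173R3.ZT
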