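import Pool.Agent.H173R3.ZT.Trop
import Pool.Agent.H173R3.ZT.Latt

/-!
# The main argument: pigeonhole over many primes
-/

set_option autoImplicit false

namespace Pool.Agent.H173R3.ZT

open MvPolynomial

variable {F : Type*} [Field F] {n : ℕ}

/-- A nonzero integer vector is orthogonal to at most `n - 1` of the vectors
`(1, T, ..., T^(n-1))`. -/
theorem vandermonde_zero (χ : Fin n → ℤ) (I : Finset ℕ) (hI : n < I.card)
    (h : ∀ i ∈ I, ∑ j : Fin n, χ j * ((i : ℤ) + 1) ^ (j : ℕ) = 0) : χ = 0 := by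
  classical
  set p : Polynomial ℤ := ∑ j : Fin n, Polynomial.C (χ j) * Polynomial.X ^ (j : ℕ) with hp
  have hcoeff : ∀ j : Fin n, p.coeff (j : ℕ) = χ j := by
    intro j
    rw [hp, Polynomial.finsetSum_coeff]
    simp only [Polynomial.coeff_C_mul_X_pow]
    rw [Finset.sum_eq_single j]
    · simp
    · intro b _ hb
      rw [if_neg]
      intro h
      exact hb (Fin.ext h.symm)
    · intro h
      exact absurd (Finset.mem_univ _) h
  have hp0 : p = 0 := by
    by_contra hne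
    have hdeg : p.natDegree ≤ n := by
      rw [hp]
      refine Polynomial.natDegree_sum_le_of_forall_le _ _ fun j _ => ?_
      exact (Polynomial.natDegree_C_mul_X_pow_le _ _).trans j.2.le
    have hroots : (I.image fun i : ℕ => (i : ℤ) + 1) ⊆ p.roots.toFinset := by
      intro z hz
      rw [Finset.mem_image] at hz
      obtain ⟨i, hi, rfl⟩ := hz
      rw [Multiset.mem_toFinset, Polynomial.mem_roots hne, Polynomial.IsRoot, hp,
        Polynomial.eval_finsetSum]
      simpa using h i hi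
    have hcard : (I.image fun i : ℕ => (i : ℤ) + 1).card = I.card :=
      Finset.card_image_of_injective _ fun a b hab => by
        have : (a : ℤ) + 1 = b + 1 := hab
        omega
    have h1 := Finset.card_le_card hroots
    have h2 := Multiset.toFinset_card_le p.roots
    have h3 := Polynomial.card_roots' p
    omega
  funext j
  rw [← hcoeff j, hp0]
  simp

theorem zpow_sum {Γ ι : Type*} [LinearOrderedCommGroupWithZero Γ] {v : Γ} (hv : v ≠ 0)
    (s : Finset ι) (e : ι → ℤ) : v ^ (∑ j ∈ s, e j) = ∏ j ∈ s, v ^ e j := by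
  classical
  induction s using Finset.induction_on with
  | empty => simp
  | insert a s ha ih => rw [Finset.sum_insert ha, Finset.prod_insert ha, zpow_add₀ hv, ih]

theorem core (d : ℕ) (f : {J : Finset (Fin n) // J.card = d + 1} → MvPolynomial (Fin n) F)
    (hf0 : ∀ J, f J ≠ 0) (hfJ : ∀ J, ∀ α ∈ (f J).support, ∀ j, j ∉ J.1 → α j = 0)
    (K : ℕ) (hK : (Fintype.piFinset fun J => (f J).support ×ˢ (f J).support).card * n < K)
    (O : ℕ → ValuationSubring F) (q : ℕ → ℕ)
    (hq : ∀ i < K, (O i).valuation (q i : F) < 1) (hq0 : ∀ i < K, (q i : F) ≠ 0)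
    (hc : ∀ i < K, ∀ J, ∀ α ∈ (f J).support, (O i).valuation ((f J).coeff α) = 1)
    (x : Fin n → F) (hx : ∀ j, x j ≠ 0) (hfx : ∀ J, eval x (f J) = 0)
    (g : Fin n → F)
    (hg : ∀ i < K, ∀ j : Fin n,
      (O i).valuation (g j) = (O i).valuation (q i : F) ^ ((i + 1) ^ (j : ℕ)))
    (Λ : Submodule ℤ (Fin n → ℤ))
    (hΛ : ∀ a ∈ Λ, ∀ i < K, (O i).valuation (chr (fun j => g j * x j) a) = 1) :
    Module.finrank ℤ Λ ≤ d := by
  classical
  by_contra hcon
  have hrank : d + 1 ≤ Module.finrank ℤ Λ := by omega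
  -- tropical relations
  have h1 : ∀ i : ℕ, ∀ J : {J : Finset (Fin n) // J.card = d + 1},
      ∃ p : (Fin n →₀ ℕ) × (Fin n →₀ ℕ), i < K →
        (p ∈ (f J).support ×ˢ (f J).support ∧ p.1 ≠ p.2 ∧ iv p.1 - iv p.2 ∈ vlat (O i) x hx) := by
    intro i J
    by_cases hi : i < K
    · obtain ⟨α, hα, β, hβ, h1, h2⟩ := exists_pair (O i) x hx (f J) (hf0 J) (hc i hi J) (hfx J)
      exact ⟨(α, β), fun _ => ⟨Finset.mk_mem_product hα hβ, h1, h2⟩⟩
    · exact ⟨(0, 0), fun h => absurd h hi⟩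
  choose p hp using h1
  obtain ⟨s, hs, hcard⟩ := Finset.exists_lt_card_fiber_of_mul_lt_card_of_maps_to
    (s := Finset.range K) (t := Fintype.piFinset fun J => (f J).support ×ˢ (f J).support)
    (f := p) (n := n)
    (fun i hi => Fintype.mem_piFinset.2 fun J => (hp i J (Finset.mem_range.1 hi)).1)
    (by rw [Finset.card_range]; exact hK)
  set I := (Finset.range K).filter fun i => p i = s with hI
  have hIK : ∀ i ∈ I, i < K ∧ p i = s := fun i hi => by
    rw [hI, Finset.mem_filter, Finset.mem_range] at hi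
    exact hi
  have hIne : I.Nonempty := Finset.card_pos.1 (by omega)
  set D : Submodule ℤ (Fin n → ℤ) := Submodule.span ℤ (Set.range fun J => iv (s J).1 - iv (s J).2)
    with hD
  have hDv : ∀ i ∈ I, D ≤ vlat (O i) x hx := by
    intro i hi
    rw [hD, Submodule.span_le]
    rintro _ ⟨J, rfl⟩
    have h2 := (hp i J (hIK i hi).1).2.2
    rw [(hIK i hi).2] at h2
    exact h2
  obtain ⟨i₀, hi₀⟩ := hIne
  have hD2 : ∀ J : Finset (Fin n), J.card = d + 1 →
      ∃ χ ∈ D, χ ≠ 0 ∧ ∀ j, j ∉ J → χ j = 0 := by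
    intro J hJ
    have h2 := hp i₀ ⟨J, hJ⟩ (hIK i₀ hi₀).1
    rw [(hIK i₀ hi₀).2] at h2
    obtain ⟨h3, h4, -⟩ := h2
    rw [Finset.mem_product] at h3
    refine ⟨iv (s ⟨J, hJ⟩).1 - iv (s ⟨J, hJ⟩).2, Submodule.subset_span ⟨⟨J, hJ⟩, rfl⟩, ?_, ?_⟩
    · intro h5
      apply h4
      ext j
      have h6 := congrFun h5 j
      simp only [iv, Pi.sub_apply, Pi.zero_apply] at h6
      omega
    · intro j hj
      have h5 := hfJ ⟨J, hJ⟩ _ h3.1 j hj
      have h6 := hfJ ⟨J, hJ⟩ _ h3.2 j hj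
      simp [iv, h5, h6]
  obtain ⟨χ, hχΛ, hχD, hχ0⟩ := exists_mem_inf D Λ hD2 hrank
  refine hχ0 (vandermonde_zero χ I hcard fun i hi => ?_)
  have hiK := (hIK i hi).1
  have h2 := hΛ χ hχΛ i hiK
  have h3 : (O i).valuation (chr x χ) = 1 := hDv i hi hχD
  rw [chr_mul, map_mul, h3, mul_one] at h2
  set v := (O i).valuation (q i : F) with hv
  have hv0 : v ≠ 0 := (Valuation.ne_zero_iff _).2 (hq0 i hiK)
  have hv1 : v < 1 := hq i hiK
  have h4 : (O i).valuation (chr g χ) = v ^ (∑ j : Fin n, χ j * ((i : ℤ) + 1) ^ (j : ℕ)) := by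
    rw [chr, map_prod]
    have h5 : ∀ j : Fin n, (O i).valuation (g j ^ χ j) =
        v ^ (χ j * ((i : ℤ) + 1) ^ (j : ℕ)) := by
      intro j
      rw [map_zpow₀, hg i hiK j, ← zpow_natCast, ← zpow_mul]
      congr 1
      push_cast
      ring
    simp only [h5]
    exact (zpow_sum hv0 _ _).symm
  rw [h4] at h2
  exact (zpow_eq_one_iff_right₀ zero_le hv1.ne).1 h2

end Pool.Agent.H173R3.ZT
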