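import Mathlib

/-!
# A residue class has positive density
-/

set_option autoImplicit false

namespace Pool.Agent.H173R3.ZT

open Filter

theorem pos_proportion {n : ℕ} (M : ℕ) (hM : 0 < M) (b : Fin n → ℕ)
    (hb : ∀ j, 0 < b j ∧ b j ≤ M) (Good : (Fin n → ℤ) → Prop)
    (h : ∀ g : Fin n → ℤ, (∀ j, g j ≡ b j [ZMOD M]) → Good g) :
    ∃ δ : ℝ, 0 < δ ∧ ∀ᶠ H : ℕ in atTop,
      δ * (H : ℝ) ^ n ≤ Nat.card {g : Fin n → ℤ // (∀ j, 1 ≤ g j ∧ g j ≤ H) ∧ Good g} := by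
  classical
  have hMr : (0 : ℝ) < M := by exact_mod_cast hM
  refine ⟨(1 / (2 * (M : ℝ))) ^ n, by positivity, ?_⟩
  filter_upwards [eventually_ge_atTop M] with H hH
  have hfin : Finite {g : Fin n → ℤ // (∀ j, 1 ≤ g j ∧ g j ≤ H) ∧ Good g} := by
    have h1 : (Set.pi Set.univ fun _ : Fin n => Set.Icc (1 : ℤ) H).Finite :=
      Set.Finite.pi fun _ => Set.finite_Icc _ _
    exact Set.Finite.subset h1 fun g hg j _ => Set.mem_Icc.2 (hg.1 j)
  let φ : (Fin n → Fin (H / M)) → {g : Fin n → ℤ // (∀ j, 1 ≤ g j ∧ g j ≤ H) ∧ Good g} :=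
    fun k => ⟨fun j => (b j : ℤ) + M * ((k j : ℕ) : ℤ), by
      refine ⟨fun j => ⟨?_, ?_⟩, h _ fun j => ?_⟩
      · have h1 := (hb j).1
        have h2 : (0 : ℤ) ≤ M * ((k j : ℕ) : ℤ) := by positivity
        change (1 : ℤ) ≤ (b j : ℤ) + M * ((k j : ℕ) : ℤ)
        omega
      · have h1 := (hb j).2
        have h2 : (k j : ℕ) + 1 ≤ H / M := (k j).2
        have h3 : M * ((k j : ℕ) + 1) ≤ H := (Nat.mul_le_mul_left M h2).trans (Nat.mul_div_le H M)
        have h4 : ((M * ((k j : ℕ) + 1) : ℕ) : ℤ) ≤ H := by exact_mod_cast h3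
        push_cast at h4
        have h5 : ((b j : ℕ) : ℤ) ≤ M := by exact_mod_cast h1
        change (b j : ℤ) + M * ((k j : ℕ) : ℤ) ≤ H
        linarith
      · rw [Int.modEq_iff_dvd]
        exact ⟨-((k j : ℕ) : ℤ), by ring⟩⟩
  have hφ : Function.Injective φ := by
    intro k l hkl
    funext j
    have h1 := congrFun (congrArg Subtype.val hkl) j
    have h2 : (b j : ℤ) + M * ((k j : ℕ) : ℤ) = (b j : ℤ) + M * ((l j : ℕ) : ℤ) := h1
    have h3 : (M : ℤ) ≠ 0 := by exact_mod_cast hM.ne'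
    have h4 : ((k j : ℕ) : ℤ) = ((l j : ℕ) : ℤ) := mul_left_cancel₀ h3 (by linarith)
    exact Fin.ext (by exact_mod_cast h4)
  have hcard := Nat.card_le_card_of_injective φ hφ
  rw [Nat.card_eq_fintype_card, Fintype.card_pi, Finset.prod_const, Finset.card_univ,
    Fintype.card_fin, Fintype.card_fin] at hcard
  have h1 : (1 / (2 * (M : ℝ))) * H ≤ ((H / M : ℕ) : ℝ) := by
    have h2 : H < M * (H / M + 1) := Nat.lt_mul_div_succ H hM
    have h3 : 1 ≤ H / M := (Nat.one_le_div_iff hM).2 hH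
    have h4 : (H : ℝ) < M * (((H / M : ℕ) : ℝ) + 1) := by exact_mod_cast h2
    have h5 : (1 : ℝ) ≤ ((H / M : ℕ) : ℝ) := by exact_mod_cast h3
    rw [div_mul_eq_mul_div, one_mul, div_le_iff₀ (by positivity)]
    nlinarith
  calc (1 / (2 * (M : ℝ))) ^ n * (H : ℝ) ^ n = ((1 / (2 * (M : ℝ))) * H) ^ n := by
        rw [mul_pow]
    _ ≤ (((H / M : ℕ) : ℝ)) ^ n := pow_le_pow_left₀ (by positivity) h1 n
    _ ≤ _ := by exact_mod_cast hcard

end Pool.Agent.H173R3.ZT
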