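import Pool.Agent.H173R3.ZT.Core

/-!
# Translates by integer vectors in a residue class
-/

set_option autoImplicit false

namespace Pool.Agent.H173R3.ZT

open MvPolynomial Filter

variable {n : ℕ}

/-- On a variety of dimension `d` any `d + 1` coordinates are algebraically dependent. -/
theorem exists_dep {d : ℕ} (P : Ideal (MvPolynomial (Fin n) ℂ)) [P.IsPrime]
    (hd : Algebra.trdeg ℂ (MvPolynomial (Fin n) ℂ ⧸ P) = d) (J : Finset (Fin n))
    (hJ : J.card = d + 1) :
    ∃ f ∈ P, f ≠ 0 ∧ ∀ α ∈ f.support, ∀ j, j ∉ J → α j = 0 := by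
  classical
  have h1 : ¬ AlgebraicIndependent ℂ
      (fun j : J => (Ideal.Quotient.mk P (X (j : Fin n)) : MvPolynomial (Fin n) ℂ ⧸ P)) := by
    intro h
    have h2 := h.cardinalMk_le_trdeg
    rw [hd, Cardinal.mk_fintype, Fintype.card_coe, hJ] at h2
    have h3 : d + 1 ≤ d := by exact_mod_cast h2
    omega
  rw [algebraicIndependent_iff] at h1
  push Not at h1
  obtain ⟨p, hp, hp0⟩ := h1
  refine ⟨rename (fun j : J => (j : Fin n)) p, ?_, ?_, ?_⟩
  · rw [← Ideal.Quotient.eq_zero_iff_mem, ← hp]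
    have h2 : (Ideal.Quotient.mkₐ ℂ P).comp (rename (fun j : J => (j : Fin n))) =
        aeval (fun j : J => (Ideal.Quotient.mk P (X (j : Fin n)))) := by
      ext j
      simp
    exact DFunLike.congr_fun h2 p
  · intro h
    exact hp0 (rename_injective _ Subtype.val_injective (by rw [h, map_zero]))
  · intro α hα j hj
    rw [support_rename_of_injective Subtype.val_injective, Finset.mem_image] at hα
    obtain ⟨β, -, rfl⟩ := hα
    exact Finsupp.mapDomain_of_notMem_range _ _ (by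
      rintro ⟨k, hk⟩
      exact hj (hk ▸ k.2))

/-- Extension of a valuation ring to a larger field. -/
theorem exists_extend {F Ω : Type*} [Field F] [Field Ω] [Algebra F Ω] (O : ValuationSubring F) :
    ∃ O' : ValuationSubring Ω,
      (∀ u : F, O.valuation u ≤ 1 → O'.valuation (algebraMap F Ω u) ≤ 1) ∧
      (∀ u : F, O.valuation u < 1 → O'.valuation (algebraMap F Ω u) < 1) ∧
      (∀ u : F, O.valuation u = 1 → O'.valuation (algebraMap F Ω u) = 1) := by
  set A : Subring Ω := O.toSubring.map (algebraMap F Ω) with hA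
  let e : O →+* A := (algebraMap F Ω).restrict O.toSubring A
    (fun x hx => Subring.mem_map.2 ⟨x, hx, rfl⟩)
  have he : Function.Surjective e := by
    rintro ⟨y, hy⟩
    obtain ⟨x, hx, rfl⟩ := Subring.mem_map.1 hy
    exact ⟨⟨x, hx⟩, rfl⟩
  have hinj : Function.Injective e := by
    intro a b h
    have h2 : algebraMap F Ω a = algebraMap F Ω b := congrArg Subtype.val h
    exact Subtype.ext ((algebraMap F Ω).injective h2)
  let I : Ideal A := (IsLocalRing.maximalIdeal O).map e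
  have hI : I ≠ ⊤ := by
    intro h
    have h1 : (1 : A) ∈ I := h ▸ Submodule.mem_top
    rw [Ideal.mem_map_iff_of_surjective e he] at h1
    obtain ⟨x, hx, hx1⟩ := h1
    have h2 : x = 1 := hinj (by rw [hx1, map_one])
    rw [h2] at hx
    exact (Ideal.ne_top_iff_one _).1 (IsLocalRing.maximalIdeal.isMaximal O).ne_top hx
  obtain ⟨O', hO', hnon⟩ := Ideal.image_subset_nonunits_valuationSubring I hI
  have h1 : ∀ u : F, O.valuation u ≤ 1 → O'.valuation (algebraMap F Ω u) ≤ 1 := by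
    intro u hu
    rw [O.valuation_le_one_iff] at hu
    rw [O'.valuation_le_one_iff]
    exact hO' (Subring.mem_map.2 ⟨u, hu, rfl⟩)
  have h2 : ∀ u : F, O.valuation u < 1 → O'.valuation (algebraMap F Ω u) < 1 := by
    intro u hu
    have hu1 : u ∈ O := (O.valuation_le_one_iff u).1 hu.le
    have hm : (⟨u, hu1⟩ : O) ∈ IsLocalRing.maximalIdeal O := by
      rw [ValuationSubring.valuation_lt_one_iff]
      exact hu
    exact hnon ⟨e ⟨u, hu1⟩, Ideal.mem_map_of_mem _ hm, rfl⟩
  refine ⟨O', h1, h2, ?_⟩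
  intro u hu
  refine le_antisymm (h1 u hu.le) ?_
  have hu0 : u ≠ 0 := by
    rintro rfl
    rw [map_zero] at hu
    exact zero_ne_one hu
  have h3 : O.valuation u⁻¹ ≤ 1 := by rw [map_inv₀, hu, inv_one]
  have h4 := h1 _ h3
  rw [map_inv₀, map_inv₀] at h4
  have h5 : O'.valuation (algebraMap F Ω u) ≠ 0 :=
    (Valuation.ne_zero_iff _).2 (by simpa using hu0)
  calc (1 : _) = O'.valuation (algebraMap F Ω u) * (O'.valuation (algebraMap F Ω u))⁻¹ :=
        (mul_inv_cancel₀ h5).symm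
    _ ≤ O'.valuation (algebraMap F Ω u) * 1 := by gcongr
    _ = O'.valuation (algebraMap F Ω u) := mul_one _

/-- primes and valuation rings of `ℂ` above them in which the members of `s` are units -/
theorem exists_primes (s : Finset ℂ) : ∃ (q : ℕ → ℕ) (O : ℕ → ValuationSubring ℂ),
    StrictMono q ∧ (∀ i, (q i).Prime) ∧ (∀ i, (O i).valuation (q i : ℂ) < 1) ∧
      ∀ i, ∀ u ∈ s, u ≠ 0 → (O i).valuation u = 1 := by
  have h1 : ∃ᶠ q : ℕ in atTop, q.Prime ∧ ∃ O : ValuationSubring ℂ, O.valuation (q : ℂ) < 1 ∧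
      ∀ u ∈ s, u ≠ 0 → O.valuation u = 1 := by
    rw [frequently_atTop']
    intro N
    obtain ⟨O, q, hq, hN, h1, h2⟩ := exists_valuationSubring s N
    exact ⟨q, hN, hq, O, h1, h2⟩
  obtain ⟨q, hmono, hq⟩ := extraction_of_frequently_atTop h1
  choose hqp O hO hs using hq
  exact ⟨q, O, hmono, hqp, hO, hs⟩

/-- integers prime to `q` are units in a valuation ring above `q` -/
theorem val_int_eq_one {F : Type*} [Field F] (O : ValuationSubring F) {q : ℕ}
    (hq : O.valuation (q : F) < 1) {m : ℤ} (hm : IsCoprime m (q : ℤ)) :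
    O.valuation (m : F) = 1 := by
  have hint : ∀ a : ℤ, O.valuation (a : F) ≤ 1 := fun a =>
    (O.valuation_le_one_iff _).2 (intCast_mem O a)
  obtain ⟨u, w, h⟩ := hm
  refine le_antisymm (hint m) ?_
  by_contra hcon
  rw [not_le] at hcon
  have h1 : O.valuation ((u * m + w * q : ℤ) : F) = 1 := by rw [h]; simp
  have h2 : O.valuation ((u * m + w * q : ℤ) : F) < 1 := by
    push_cast
    refine O.valuation.map_add_lt ?_ ?_
    · rw [map_mul]
      calc O.valuation (u : F) * O.valuation (m : F) ≤ 1 * O.valuation (m : F) := by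
            gcongr; exact hint u
        _ < 1 := by rw [one_mul]; exact hcon
    · rw [map_mul]
      calc O.valuation (w : F) * O.valuation (q : F) ≤ 1 * O.valuation (q : F) := by
            gcongr; exact hint w
        _ < 1 := by rw [one_mul]; exact hq
  rw [h1] at h2
  exact lt_irrefl _ h2

/-- the modulus -/
def modM (n K : ℕ) (q : ℕ → ℕ) : ℕ := ∏ i ∈ Finset.range K, q i ^ (K ^ n + 1)

/-- the residues -/
def resB (K : ℕ) (q : ℕ → ℕ) (j : ℕ) : ℕ := ∏ i ∈ Finset.range K, q i ^ ((i + 1) ^ j)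

theorem modM_pos {K : ℕ} {q : ℕ → ℕ} (hq : ∀ i, (q i).Prime) : 0 < modM n K q :=
  Finset.prod_pos fun i _ => pow_pos (hq i).pos _

theorem resB_pos {K : ℕ} {q : ℕ → ℕ} (hq : ∀ i, (q i).Prime) (j : ℕ) : 0 < resB K q j :=
  Finset.prod_pos fun i _ => pow_pos (hq i).pos _

theorem exp_le {K i j : ℕ} (hi : i < K) (hj : j < n) : (i + 1) ^ j ≤ K ^ n :=
  (Nat.pow_le_pow_left (by omega : i + 1 ≤ K) j).trans (Nat.pow_le_pow_right (by omega) hj.le)

theorem resB_le {K : ℕ} {q : ℕ → ℕ} (hq : ∀ i, (q i).Prime) {j : ℕ} (hj : j < n) :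
    resB K q j ≤ modM n K q := by
  refine Finset.prod_le_prod' fun i hi => ?_
  exact Nat.pow_le_pow_right (hq i).pos
    ((exp_le (Finset.mem_range.1 hi) hj).trans (Nat.le_succ _))

theorem val_res {F : Type*} [Field F] (O : ValuationSubring F) {K : ℕ} {q : ℕ → ℕ}
    (hq : ∀ i, (q i).Prime) (hmono : StrictMono q) {i : ℕ} (hi : i < K)
    (hO : O.valuation (q i : F) < 1) (hq0 : (q i : F) ≠ 0) {j : ℕ} (hj : j < n) (g : ℤ)
    (hg : g ≡ resB K q j [ZMOD modM n K q]) :
    O.valuation (g : F) = O.valuation (q i : F) ^ ((i + 1) ^ j) := by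
  have hother : ∀ k, k ≠ i → O.valuation (q k : F) = 1 := by
    intro k hk
    have h1 : IsCoprime ((q k : ℕ) : ℤ) (q i : ℤ) := by
      rw [Nat.isCoprime_iff_coprime, Nat.coprime_primes (hq k) (hq i)]
      exact fun h => hk (hmono.injective h)
    simpa using val_int_eq_one O hO h1
  have hprod : ∀ e : ℕ → ℕ, O.valuation ((∏ k ∈ Finset.range K, q k ^ e k : ℕ) : F) =
      O.valuation (q i : F) ^ e i := by
    intro e
    push_cast
    rw [map_prod, Finset.prod_eq_single_of_mem i (Finset.mem_range.2 hi)]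
    · rw [map_pow]
    · intro k _ hk
      rw [map_pow, hother k hk, one_pow]
  obtain ⟨c, hc⟩ := (Int.modEq_iff_dvd.1 hg.symm)
  have h1 : (g : F) = ((resB K q j : ℕ) : F) + ((modM n K q : ℕ) : F) * (c : F) := by
    have h2 : g = (resB K q j : ℤ) + (modM n K q : ℤ) * c := by linarith
    rw [h2]
    push_cast
    ring
  have hv0 : O.valuation (q i : F) ≠ 0 := (Valuation.ne_zero_iff _).2 hq0
  have h2 : O.valuation ((resB K q j : ℕ) : F) = O.valuation (q i : F) ^ ((i + 1) ^ j) := hprod _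
  have h3 : O.valuation ((modM n K q : ℕ) : F) = O.valuation (q i : F) ^ (K ^ n + 1) := hprod _
  rw [h1, Valuation.map_add_eq_of_lt_left, h2]
  rw [map_mul, h2, h3]
  have h4 : O.valuation (c : F) ≤ 1 := (O.valuation_le_one_iff _).2 (intCast_mem O c)
  have h5 : O.valuation (q i : F) ^ (K ^ n + 1) < O.valuation (q i : F) ^ ((i + 1) ^ j) :=
    pow_lt_pow_right_of_lt_one₀ (zero_lt_iff.2 hv0) hO
      (Nat.lt_succ_of_le (exp_le hi hj))
  calc O.valuation (q i : F) ^ (K ^ n + 1) * O.valuation (c : F)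
      ≤ O.valuation (q i : F) ^ (K ^ n + 1) * 1 := by gcongr
    _ = O.valuation (q i : F) ^ (K ^ n + 1) := mul_one _
    _ < _ := h5

/-- **Main residue class theorem.** -/
theorem exists_class {d : ℕ} (P : Ideal (MvPolynomial (Fin n) ℂ)) [P.IsPrime]
    (hd : Algebra.trdeg ℂ (MvPolynomial (Fin n) ℂ ⧸ P) = d) :
    ∃ (M : ℕ) (b : Fin n → ℕ), 0 < M ∧ (∀ j, 0 < b j ∧ b j ≤ M) ∧
      ∀ g : Fin n → ℤ, (∀ j, g j ≡ b j [ZMOD M]) →
        ∀ (Ω : Type) [Field Ω] [Algebra ℂ Ω] (x : Fin n → Ω), (∀ j, x j ≠ 0) →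
          (∀ f ∈ P, aeval x f = 0) →
          ∀ Λ : Submodule ℤ (Fin n → ℤ),
            (∀ a ∈ Λ, ∃ m : ℕ, 0 < m ∧ chr (fun j => (g j : Ω) * x j) a ^ m = 1) →
            Module.finrank ℤ Λ ≤ d := by
  classical
  choose f hfP hf0 hfJ using fun J : {J : Finset (Fin n) // J.card = d + 1} =>
    exists_dep P hd J.1 J.2
  set s : Finset ℂ := Finset.univ.biUnion fun J => (f J).support.image fun α => (f J).coeff α
    with hs
  obtain ⟨q, O, hmono, hqp, hO, hsO⟩ := exists_primes s
  set K : ℕ := (Fintype.piFinset fun J => (f J).support ×ˢ (f J).support).card * n + 1 with hK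
  refine ⟨modM n K q, fun j => resB K q j, modM_pos hqp,
    fun j => ⟨resB_pos hqp _, resB_le hqp j.2⟩, ?_⟩
  intro g hg Ω _ _ x hx hxP Λ hΛ
  have hchar : CharZero Ω := charZero_of_injective_algebraMap (algebraMap ℂ Ω).injective
  choose O' h1 h2 h3 using fun i => exists_extend (Ω := Ω) (O i)
  have hq0 : ∀ i, (q i : Ω) ≠ 0 := fun i => Nat.cast_ne_zero.2 (hqp i).ne_zero
  have hqO' : ∀ i, (O' i).valuation (q i : Ω) < 1 := by
    intro i
    have := h2 i (q i) (hO i)
    rwa [map_natCast] at this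
  have hsupp : ∀ J, (map (algebraMap ℂ Ω) (f J)).support = (f J).support := fun J =>
    support_map_of_injective _ (algebraMap ℂ Ω).injective
  have hgv : ∀ i < K, ∀ j : Fin n,
      (O' i).valuation ((g j : ℤ) : Ω) = (O' i).valuation (q i : Ω) ^ ((i + 1) ^ (j : ℕ)) :=
    fun i hi j => val_res (O' i) hqp hmono hi (hqO' i) (hq0 i) j.2 (g j) (hg j)
  refine core d (fun J => map (algebraMap ℂ Ω) (f J)) ?_ ?_ K ?_ O' q (fun i _ => hqO' i)
    (fun i _ => hq0 i) ?_ x hx ?_ (fun j => (g j : Ω)) hgv Λ ?_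
  · intro J h
    exact hf0 J (map_injective _ (algebraMap ℂ Ω).injective (by rw [h, map_zero]))
  · intro J α hα j hj
    rw [hsupp] at hα
    exact hfJ J α hα j hj
  · simp only [hsupp]
    exact Nat.lt_succ_self _
  · intro i _ J α hα
    rw [hsupp] at hα
    rw [coeff_map]
    refine h3 i _ (hsO i _ ?_ (mem_support_iff.1 hα))
    rw [hs]
    exact Finset.mem_biUnion.2 ⟨J, Finset.mem_univ _, Finset.mem_image_of_mem _ hα⟩
  · intro J
    rw [eval_map]
    exact hxP _ (hfP J)
  · intro a ha i _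
    obtain ⟨m, hm, h4⟩ := hΛ a ha
    have h5 : (O' i).valuation (chr (fun j => (g j : Ω) * x j) a) ^ m = 1 := by
      rw [← map_pow, h4, map_one]
    exact (pow_eq_one_iff_of_nonneg zero_le hm.ne').1 h5

end Pool.Agent.H173R3.ZT
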