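import Pool.Agent.H173R3.ZT.Pos

/-!
# Versions with a finitely generated group of constants
-/

set_option autoImplicit false

namespace Pool.Agent.H173R3.ZT

open MvPolynomial Filter

variable {n : ℕ}

theorem val_closure {O : ValuationSubring ℂ} (G₀ : Finset ℂˣ)
    (h : ∀ u ∈ G₀, O.valuation (u : ℂ) = 1) (c : ℂˣ)
    (hc : c ∈ Subgroup.closure (G₀ : Set ℂˣ)) : O.valuation (c : ℂ) = 1 := by
  induction hc using Subgroup.closure_induction with
  | mem u hu => exact h u (Finset.mem_coe.1 hu)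
  | one => simp
  | mul u w _ _ hu hw => rw [Units.val_mul, map_mul, hu, hw, one_mul]
  | inv u _ hu => rw [Units.val_inv_eq_inv_val, map_inv₀, hu, inv_one]

/-- Main residue class theorem, with constants. -/
theorem exists_class_G {d : ℕ} (P : Ideal (MvPolynomial (Fin n) ℂ)) [P.IsPrime]
    (hd : Algebra.trdeg ℂ (MvPolynomial (Fin n) ℂ ⧸ P) = d) (G₀ : Finset ℂˣ) :
    ∃ (M : ℕ) (b : Fin n → ℕ), 0 < M ∧ (∀ j, 0 < b j ∧ b j ≤ M) ∧
      ∀ g : Fin n → ℤ, (∀ j, g j ≡ b j [ZMOD M]) →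
        ∀ (Ω : Type) [Field Ω] [Algebra ℂ Ω] (x : Fin n → Ω), (∀ j, x j ≠ 0) →
          (∀ f ∈ P, aeval x f = 0) →
          ∀ Λ : Submodule ℤ (Fin n → ℤ),
            (∀ a ∈ Λ, ∃ m : ℕ, 0 < m ∧ ∃ c ∈ Subgroup.closure (G₀ : Set ℂˣ),
              chr (fun j => (g j : Ω) * x j) a ^ m = algebraMap ℂ Ω (c : ℂ)) →
            Module.finrank ℤ Λ ≤ d := by
  classical
  choose f hfP hf0 hfJ using fun J : {J : Finset (Fin n) // J.card = d + 1} =>
    exists_dep P hd J.1 J.2
  set s : Finset ℂ := (Finset.univ.biUnion fun J => (f J).support.image fun α => (f J).coeff α) ∪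
    G₀.image (fun c : ℂˣ => (c : ℂ)) with hs
  obtain ⟨q, O, hmono, hqp, hO, hsO⟩ := exists_primes s
  set K : ℕ := (Fintype.piFinset fun J => (f J).support ×ˢ (f J).support).card * n + 1 with hK
  refine ⟨modM n K q, fun j => resB K q j, modM_pos hqp,
    fun j => ⟨resB_pos hqp _, resB_le hqp j.2⟩, ?_⟩
  intro g hg Ω _ _ x hx hxP Λ hΛ
  have hchar : CharZero Ω := charZero_of_injective_algebraMap (algebraMap ℂ Ω).injective
  choose O' h1 h2 h3 using fun i => exists_extend (Ω := Ω) (O i)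
  have hq0 : ∀ i, (q i : Ω) ≠ 0 := fun i => Nat.cast_ne_zero.2 (hqp i).ne_zero
  have hqO' : ∀ i, (O' i).valuation (q i : Ω) < 1 := by
    intro i
    have := h2 i (q i) (hO i)
    rwa [map_natCast] at this
  have hsupp : ∀ J, (map (algebraMap ℂ Ω) (f J)).support = (f J).support := fun J =>
    support_map_of_injective _ (algebraMap ℂ Ω).injective
  have hgv : ∀ i < K, ∀ j : Fin n,
      (O' i).valuation ((g j : ℤ) : Ω) = (O' i).valuation (q i : Ω) ^ ((i + 1) ^ (j : ℕ)) :=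
    fun i hi j => val_res (O' i) hqp hmono hi (hqO' i) (hq0 i) j.2 (g j) (hg j)
  refine core d (fun J => map (algebraMap ℂ Ω) (f J)) ?_ ?_ K ?_ O' q (fun i _ => hqO' i)
    (fun i _ => hq0 i) ?_ x hx ?_ (fun j => (g j : Ω)) hgv Λ ?_
  · intro J h
    exact hf0 J (map_injective _ (algebraMap ℂ Ω).injective (by rw [h, map_zero]))
  · intro J α hα j hj
    rw [hsupp] at hα
    exact hfJ J α hα j hj
  · simp only [hsupp]
    exact Nat.lt_succ_self _
  · intro i _ J α hα
    rw [hsupp] at hα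
    rw [coeff_map]
    refine h3 i _ (hsO i _ ?_ (mem_support_iff.1 hα))
    rw [hs]
    exact Finset.mem_union_left _
      (Finset.mem_biUnion.2 ⟨J, Finset.mem_univ _, Finset.mem_image_of_mem _ hα⟩)
  · intro J
    rw [eval_map]
    exact hxP _ (hfP J)
  · intro a ha i _
    obtain ⟨m, hm, c, hc, h4⟩ := hΛ a ha
    have hcv : (O i).valuation (c : ℂ) = 1 := by
      refine val_closure G₀ (fun u hu => hsO i _ ?_ u.ne_zero) c hc
      rw [hs]
      exact Finset.mem_union_right _ (Finset.mem_image_of_mem _ hu)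
    have h5 : (O' i).valuation (chr (fun j => (g j : Ω) * x j) a) ^ m = 1 := by
      rw [← map_pow, h4, h3 i _ hcv]
    exact (pow_eq_one_iff_of_nonneg zero_le hm.ne').1 h5

/-- algebraically independent elements are multiplicatively independent modulo constants -/
theorem mult_indep_const {F Ω ι : Type*} [Field F] [Field Ω] [Algebra F Ω] [Fintype ι]
    (y : ι → Ω) (hy : AlgebraicIndependent F y) (e : ι → ℤ) (m : ℕ) (hm : 0 < m) (c : F)
    (h : (∏ i, y i ^ e i) ^ m = algebraMap F Ω c) : e = 0 := by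
  classical
  have hy0 : ∀ i, y i ≠ 0 := fun i => hy.ne_zero i
  have hc0 : c ≠ 0 := by
    rintro rfl
    rw [map_zero] at h
    exact pow_ne_zero _ (Finset.prod_ne_zero_iff.2 fun i _ => zpow_ne_zero _ (hy0 i)) h
  set α : ι →₀ ℕ := Finsupp.equivFunOnFinite.symm fun i => ((m : ℤ) * e i).toNat with hα
  set β : ι →₀ ℕ := Finsupp.equivFunOnFinite.symm fun i => (-((m : ℤ) * e i)).toNat with hβ
  have hαβ : ∀ i, (α i : ℤ) - (β i : ℤ) = m * e i := by
    intro i
    change ((((m : ℤ) * e i).toNat : ℕ) : ℤ) - (((-((m : ℤ) * e i)).toNat : ℕ) : ℤ) = m * e i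
    omega
  have h1 : (∏ i, y i ^ α i) = algebraMap F Ω c * ∏ i, y i ^ β i := by
    have h3 : (∏ i, y i ^ β i) ≠ 0 := Finset.prod_ne_zero_iff.2 fun i _ => pow_ne_zero _ (hy0 i)
    rw [← div_eq_iff h3, ← Finset.prod_div_distrib, ← h, ← Finset.prod_pow]
    refine Finset.prod_congr rfl fun i _ => ?_
    rw [← zpow_natCast, ← zpow_natCast, ← zpow_natCast, ← zpow_sub₀ (hy0 i), hαβ, ← zpow_mul,
      mul_comm]
  have h2 : aeval y (monomial α (1 : F)) = aeval y (monomial β c) := by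
    rw [aeval_monomial, aeval_monomial, map_one, one_mul, Finsupp.prod_fintype,
      Finsupp.prod_fintype, h1]
    · intro i; exact pow_zero _
    · intro i; exact pow_zero _
  have h3 : monomial α (1 : F) = monomial β c := hy h2
  have h4 : α = β := by
    rw [monomial_eq_monomial_iff] at h3
    rcases h3 with h3 | h3
    · exact h3.1
    · exact absurd h3.1 one_ne_zero
  funext i
  have h5 := hαβ i
  rw [h4, sub_self] at h5
  have hm' : (m : ℤ) ≠ 0 := by exact_mod_cast hm.ne'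
  exact (mul_eq_zero.1 h5.symm).resolve_left hm'

/-- the characters with value in the division closure of the group generated by `G₀` -/
def divLat {Ω : Type*} [Field Ω] [Algebra ℂ Ω] (G₀ : Finset ℂˣ) (x : Fin n → Ω)
    (hx : ∀ i, x i ≠ 0) : Submodule ℤ (Fin n → ℤ) where
  carrier := {a | ∃ m : ℕ, 0 < m ∧ ∃ c ∈ Subgroup.closure (G₀ : Set ℂˣ),
    chr x a ^ m = algebraMap ℂ Ω (c : ℂ)}
  zero_mem' := ⟨1, one_pos, 1, Subgroup.one_mem _, by
    rw [chr_zero, one_pow, Units.val_one, map_one]⟩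
  add_mem' := by
    rintro a b ⟨k, hk, c, hc, ha⟩ ⟨l, hl, c', hc', hb⟩
    refine ⟨k * l, Nat.mul_pos hk hl, c ^ l * c' ^ k,
      Subgroup.mul_mem _ (Subgroup.pow_mem _ hc _) (Subgroup.pow_mem _ hc' _), ?_⟩
    rw [chr_add hx, mul_pow, pow_mul, ha, mul_comm k l, pow_mul, hb, Units.val_mul, map_mul,
      Units.val_pow_eq_pow_val, Units.val_pow_eq_pow_val, map_pow, map_pow]
  smul_mem' := by
    rintro e a ⟨k, hk, c, hc, ha⟩
    refine ⟨k, hk, c ^ e, Subgroup.zpow_mem _ hc _, ?_⟩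
    rw [chr_zsmul, ← zpow_natCast, ← zpow_mul, mul_comm, zpow_mul, zpow_natCast, ha,
      Units.val_zpow_eq_zpow_val, map_zpow₀]

/-- rank of the relations together with `T` -/
theorem finrank_add_card_G {F Ω : Type*} [Field F] [Field Ω] [Algebra F Ω] (z : Fin n → Ω)
    (hz : ∀ j, z j ≠ 0) (T : Finset (Fin n)) (hT : AlgebraicIndependent F (fun j : T => z j))
    (Λ : Submodule ℤ (Fin n → ℤ)) (hΛ : ∀ a ∈ Λ, ∃ m : ℕ, 0 < m ∧ ∃ c : F, chr z a ^ m =
      algebraMap F Ω c)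
    (Λ' : Submodule ℤ (Fin n → ℤ)) (h1 : Λ ≤ Λ') (h2 : ∀ j ∈ T, Pi.single j (1 : ℤ) ∈ Λ') :
    Module.finrank ℤ Λ + T.card ≤ Module.finrank ℤ Λ' := by
  classical
  let ψ : (Λ × (T → ℤ)) →ₗ[ℤ] (Fin n → ℤ) := Λ.subtype.coprod
    (Fintype.linearCombination ℤ (fun j : T => (Pi.single (j : Fin n) (1 : ℤ) : Fin n → ℤ)))
  have hψ : ∀ a e, ψ (a, e) = (a : Fin n → ℤ) +
      ∑ j : T, e j • (Pi.single (j : Fin n) (1 : ℤ) : Fin n → ℤ) := by
    intro a e
    simp [ψ, Fintype.linearCombination_apply]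
  have hinj : Function.Injective ψ := by
    rw [injective_iff_map_eq_zero]
    rintro ⟨a, e⟩ h
    rw [hψ] at h
    obtain ⟨m, hm, c, h3⟩ := hΛ a a.2
    have h4 : (-(a : Fin n → ℤ)) = ∑ j : T, e j • (Pi.single (j : Fin n) (1 : ℤ) : Fin n → ℤ) := by
      rw [neg_eq_iff_add_eq_zero]
      exact h
    have h5 : chr z (-(a : Fin n → ℤ)) ^ m = algebraMap F Ω c⁻¹ := by
      have h6 : -(a : Fin n → ℤ) = (-1 : ℤ) • (a : Fin n → ℤ) := by simp
      rw [h6, chr_zsmul, zpow_neg_one, inv_pow, h3, map_inv₀]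
    rw [h4, chr_sum hz] at h5
    have h7 : ∀ j : T, chr z (e j • (Pi.single (j : Fin n) (1 : ℤ) : Fin n → ℤ)) =
        z j ^ e j := fun j => by rw [chr_zsmul, chr_single]
    simp only [h7] at h5
    have h8 := mult_indep_const (fun j : T => z j) hT e m hm _ h5
    have h9 : (a : Fin n → ℤ) = 0 := by
      rw [h8] at h4
      simpa using h4
    exact Prod.ext (Subtype.ext h9) h8
  have hrange : LinearMap.range ψ ≤ Λ' := by
    rintro _ ⟨⟨a, e⟩, rfl⟩
    rw [hψ]
    exact Λ'.add_mem (h1 a.2) (Λ'.sum_mem fun j _ => Λ'.smul_mem _ (h2 j j.2))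
  have h3 := LinearMap.finrank_range_of_inj hinj
  rw [Module.finrank_prod, Module.finrank_fintype_fun_eq_card, Fintype.card_coe] at h3
  rw [← h3]
  exact Submodule.finrank_mono hrange

/-- Main theorem for generic points, with constants. -/
theorem exists_class_pos_G {d : ℕ} (P : Ideal (MvPolynomial (Fin n) ℂ)) [P.IsPrime]
    (hd : Algebra.trdeg ℂ (MvPolynomial (Fin n) ℂ ⧸ P) = d) (G₀ : Finset ℂˣ) :
    ∃ (M : ℕ) (b : Fin n → ℕ), 0 < M ∧ (∀ j, 0 < b j ∧ b j ≤ M) ∧
      ∀ g : Fin n → ℤ, (∀ j, g j ≡ b j [ZMOD M]) → (∀ j, g j ≠ 0) ∧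
        ∀ (Ω : Type) [Field Ω] [Algebra ℂ Ω] (z : Fin n → Ω), (∀ j, z j ≠ 0) →
          (∀ f ∈ P, aeval (fun j => ((g j : ℤ) : Ω)⁻¹ * z j) f = 0) →
          ∀ T : Finset (Fin n), AlgebraicIndependent ℂ (fun j : T => z j) →
            (∀ j, IsAlgebraic (Algebra.adjoin ℂ (Set.range fun j : T => z j)) (z j)) →
            ∀ Λ : Submodule ℤ (Fin n → ℤ),
              (∀ a ∈ Λ, ∃ m : ℕ, 0 < m ∧ ∃ c ∈ Subgroup.closure (G₀ : Set ℂˣ),
                chr z a ^ m = algebraMap ℂ Ω (c : ℂ)) →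
              Module.finrank ℤ Λ + T.card ≤ d := by
  classical
  obtain ⟨M, b, hM, hb, hmain⟩ := exists_class_G P hd G₀
  refine ⟨2 * M, b, by omega, fun j => ⟨(hb j).1, by have := (hb j).2; omega⟩, ?_⟩
  intro g hg
  have hgM : ∀ j, g j ≡ b j [ZMOD M] := fun j =>
    Int.ModEq.of_dvd (by push_cast; exact ⟨2, by ring⟩) (hg j)
  have hg0 : ∀ j, g j ≠ 0 := by
    intro j h0
    have h1 := hg j
    rw [h0] at h1
    have h2 : ((2 * M : ℕ) : ℤ) ∣ (b j : ℤ) := by
      have := Int.modEq_iff_dvd.1 h1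
      simpa using this
    have h3 : 2 * M ∣ b j := by exact_mod_cast h2
    have h4 := Nat.le_of_dvd (hb j).1 h3
    have h5 := (hb j).2
    omega
  refine ⟨hg0, ?_⟩
  intro Ω _ _ z hz hzP T hT halg Λ hΛ
  have hchar : CharZero Ω := charZero_of_injective_algebraMap (algebraMap ℂ Ω).injective
  set y : T → Ω := fun j => z j with hy
  -- relations
  have hrel : ∀ j : Fin n, ∃ (p : Polynomial Ω) (r s : MvPolynomial T ℂ), r ≠ 0 ∧ s ≠ 0 ∧
      p.coeff 0 = aeval y r ∧ p.leadingCoeff = aeval y s ∧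
      (∀ k, ∃ t : MvPolynomial T ℂ, p.coeff k = aeval y t) ∧ p.eval (z j) = 0 := by
    intro j
    obtain ⟨q, hq0, hq⟩ := (halg j).exists_nonzero_coeff_and_aeval_eq_zero
      (mem_nonZeroDivisors_of_ne_zero (hz j))
    set p : Polynomial Ω := q.map (algebraMap (Algebra.adjoin ℂ (Set.range y)) Ω) with hp
    have hcoef : ∀ k, ∃ t : MvPolynomial T ℂ, p.coeff k = aeval y t := by
      intro k
      rw [hp, Polynomial.coeff_map]
      have h1 : ((q.coeff k : Algebra.adjoin ℂ (Set.range y)) : Ω) ∈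
          Algebra.adjoin ℂ (Set.range y) := (q.coeff k).2
      have h2 : ∀ x : Ω, x ∈ Algebra.adjoin ℂ (Set.range y) →
          ∃ t : MvPolynomial T ℂ, aeval y t = x := by
        intro x hx
        rw [Algebra.adjoin_range_eq_range_aeval] at hx
        exact hx
      obtain ⟨t, ht⟩ := h2 _ h1
      exact ⟨t, ht.symm⟩
    have hinj : Function.Injective (algebraMap (Algebra.adjoin ℂ (Set.range y)) Ω) :=
      Subtype.val_injective
    have hpc0 : p.coeff 0 ≠ 0 := by
      rw [hp, Polynomial.coeff_map]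
      intro h
      exact hq0 (hinj (by rw [h, map_zero]))
    have hpl : p.leadingCoeff ≠ 0 := by
      rw [Polynomial.leadingCoeff_ne_zero]
      rintro h
      rw [h, Polynomial.coeff_zero] at hpc0
      exact hpc0 rfl
    obtain ⟨r, hr⟩ := hcoef 0
    obtain ⟨s, hs⟩ := hcoef p.natDegree
    refine ⟨p, r, s, ?_, ?_, hr, hs, hcoef, ?_⟩
    · rintro rfl
      rw [map_zero] at hr
      exact hpc0 hr
    · rintro rfl
      rw [map_zero] at hs
      exact hpl hs
    · rw [hp, Polynomial.eval_map]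
      exact hq
  choose p r s hr hs hpr hps hpt hpz using hrel
  set h : MvPolynomial T ℂ := ∏ j, (r j * s j) with hh
  have hh0 : h ≠ 0 := Finset.prod_ne_zero_iff.2 fun j _ => mul_ne_zero (hr j) (hs j)
  obtain ⟨ζ, hζ, hζh⟩ := exists_torsion_ne_zero h hh0
  have hζr : ∀ j, eval ζ (r j) ≠ 0 ∧ eval ζ (s j) ≠ 0 := by
    intro j
    rw [hh, map_prod, Finset.prod_ne_zero_iff] at hζh
    have := hζh j (Finset.mem_univ j)
    rw [map_mul] at this
    exact ⟨left_ne_zero_of_mul this, right_ne_zero_of_mul this⟩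
  obtain ⟨W, hW1, hW2, hW3⟩ := exists_center y hT ζ
  have hvz : ∀ j, W.valuation (z j) = 1 := by
    intro j
    refine val_eq_one_of_rel W (z j) (p j) ?_ ?_ ?_ (hpz j)
    · rw [hpr]
      exact hW3 _ (hζr j).1
    · rw [hps]
      exact hW3 _ (hζr j).2
    · intro k
      obtain ⟨t, ht⟩ := hpt j k
      rw [ht]
      exact hW1 t
  have hconst : ∀ c : ℂ, W.valuation (algebraMap ℂ Ω c) ≤ 1 := by
    intro c
    have := hW1 (C c)
    rwa [aeval_C] at this
  have hconst1 : ∀ c : ℂ, c ≠ 0 → W.valuation (algebraMap ℂ Ω c) = 1 := by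
    intro c hc
    have := hW3 (C c) (by rwa [eval_C])
    rwa [aeval_C] at this
  -- units of `W`
  have hunit : ∀ x : Ω, W.valuation x = 1 → ∃ u : Wˣ, ((u : W) : Ω) = x := by
    intro x hx
    have hx0 : x ≠ 0 := by
      rintro rfl
      rw [map_zero] at hx
      exact zero_ne_one hx
    have h1 : x ∈ W := (W.valuation_le_one_iff x).1 hx.le
    have h2 : x⁻¹ ∈ W := (W.valuation_le_one_iff _).1 (by rw [map_inv₀, hx, inv_one])
    exact ⟨⟨⟨x, h1⟩, ⟨x⁻¹, h2⟩, Subtype.ext (mul_inv_cancel₀ hx0),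
      Subtype.ext (inv_mul_cancel₀ hx0)⟩, rfl⟩
  choose u hu using fun j => hunit (z j) (hvz j)
  have hgint : ∀ j, W.valuation (((g j : ℤ) : Ω)⁻¹ * z j) = 1 := by
    intro j
    have h1 := hconst1 ((g j : ℤ) : ℂ) (by exact_mod_cast hg0 j)
    rw [map_intCast] at h1
    rw [map_mul, map_inv₀, h1, hvz, inv_one, one_mul]
  choose w hw using fun j => hunit _ (hgint j)
  let ιC : ℂ →+* W := (algebraMap ℂ Ω).codRestrict W.toSubring
    (fun c => (W.valuation_le_one_iff _).1 (hconst c))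
  let ρ : W →+* IsLocalRing.ResidueField W := IsLocalRing.residue W
  let _ : Algebra ℂ (IsLocalRing.ResidueField W) := (ρ.comp ιC).toAlgebra
  have hρne : ∀ v : Wˣ, ρ (v : W) ≠ 0 := fun v =>
    ((Units.map (ρ : W →* IsLocalRing.ResidueField W) v)).ne_zero
  have hPres : ∀ f ∈ P, aeval (fun j => ρ (w j : W)) f = 0 := by
    intro f hf
    have h1 : eval₂ ιC (fun j => (w j : W)) f = 0 := by
      have h2 : W.subtype (eval₂ ιC (fun j => (w j : W)) f) = 0 := by
        rw [eval₂_comp_left]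
        have h3 := hzP f hf
        rw [aeval_def] at h3
        rw [← h3]
        congr 1
        funext j
        exact hw j
      exact Subtype.ext h2
    have h4 : aeval (fun j => ρ (w j : W)) f = ρ (eval₂ ιC (fun j => (w j : W)) f) := by
      rw [aeval_def, eval₂_comp_left]
      rfl
    rw [h4, h1, map_zero]
  have hzbar : (fun j => ((g j : ℤ) : IsLocalRing.ResidueField W) * ρ (w j : W)) =
      fun j => ρ (u j : W) := by
    funext j
    rw [← map_intCast ρ, ← map_mul]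
    congr 1
    apply Subtype.ext
    have hgj : (((g j : ℤ) : Ω)) ≠ 0 := by exact_mod_cast hg0 j
    change ((g j : ℤ) : Ω) * ((w j : W) : Ω) = ((u j : W) : Ω)
    rw [hw, hu, mul_inv_cancel_left₀ hgj]
  have hzne : ∀ j, ρ (u j : W) ≠ 0 := fun j => hρne (u j)
  have hkey := hmain g hgM (IsLocalRing.ResidueField W) (fun j => ρ (w j : W))
    (fun j => hρne (w j)) hPres (divLat G₀ (fun j => ρ (u j : W)) hzne) (fun a ha => by
      rw [hzbar]
      exact ha)
  refine le_trans (finrank_add_card_G z hz T hT Λ (fun a ha => by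
    obtain ⟨m, hm, c, -, h⟩ := hΛ a ha
    exact ⟨m, hm, c, h⟩) _ ?_ ?_) hkey
  · intro a ha
    obtain ⟨m, hm, c, hcG, h1⟩ := hΛ a ha
    refine ⟨m, hm, c, hcG, ?_⟩
    have h2 : z = fun j => W.subtype (u j : W) := funext fun j => (hu j).symm
    rw [h2, chr_units, ← map_pow] at h1
    have h3 : (((∏ j, u j ^ a j : Wˣ) : W)) ^ m = ιC (c : ℂ) := by
      apply Subtype.ext
      exact h1
    rw [chr_units, ← map_pow, h3]
    rfl
  · intro j hj
    obtain ⟨m, hm, h1⟩ := hζ ⟨j, hj⟩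
    refine ⟨m, hm, 1, Subgroup.one_mem _, ?_⟩
    rw [Units.val_one, map_one]
    rw [chr_single]
    have h2 : ρ (u j : W) = ρ (ιC (ζ ⟨j, hj⟩)) := by
      have h3 : W.valuation (aeval y (X ⟨j, hj⟩ - C (ζ ⟨j, hj⟩) : MvPolynomial T ℂ)) < 1 :=
        hW2 _ (by simp)
      have h4 : ((u j : W) - ιC (ζ ⟨j, hj⟩)) ∈ IsLocalRing.maximalIdeal W := by
        rw [ValuationSubring.valuation_lt_one_iff]
        convert h3 using 2
        rw [map_sub, aeval_X, aeval_C]
        change ((u j : W) : Ω) - algebraMap ℂ Ω (ζ ⟨j, hj⟩) = _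
        rw [hu]
      rw [← sub_eq_zero, ← map_sub]
      exact (IsLocalRing.residue_eq_zero_iff _).2 h4
    rw [h2, ← map_pow, ← map_pow, h1, map_one, map_one]

end Pool.Agent.H173R3.ZT
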