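import Pool.Agent.H173R3.ZT.Spec

/-!
# Positive dimensional intersections
-/

set_option autoImplicit false

namespace Pool.Agent.H173R3.ZT

open MvPolynomial Filter

variable {n : ℕ}

theorem chr_units {A F : Type*} [CommRing A] [Field F] (φ : A →+* F) (u : Fin n → Aˣ)
    (a : Fin n → ℤ) :
    chr (fun j => φ (u j : A)) a = φ ((∏ j, u j ^ a j : Aˣ) : A) := by
  have h1 : φ ((∏ j, u j ^ a j : Aˣ) : A) =
      ((Units.map (φ : A →* F) (∏ j, u j ^ a j) : Fˣ) : F) := rfl
  rw [h1, map_prod, Units.coe_prod, chr]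
  refine Finset.prod_congr rfl fun j _ => ?_
  rw [map_zpow, Units.val_zpow_eq_zpow_val]
  rfl

theorem chr_single {F : Type*} [Field F] (x : Fin n → F) (j : Fin n) :
    chr x (Pi.single j (1 : ℤ)) = x j := by
  rw [chr, Finset.prod_eq_single j]
  · simp
  · intro i _ hi
    rw [Pi.single_eq_of_ne hi, zpow_zero]
  · intro h
    exact absurd (Finset.mem_univ _) h

theorem chr_sum {F ι : Type*} [Field F] {x : Fin n → F} (hx : ∀ j, x j ≠ 0) (s : Finset ι)
    (v : ι → Fin n → ℤ) : chr x (∑ k ∈ s, v k) = ∏ k ∈ s, chr x (v k) := by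
  classical
  induction s using Finset.induction_on with
  | empty => simp [chr_zero]
  | insert a s ha ih => rw [Finset.sum_insert ha, Finset.prod_insert ha, chr_add hx, ih]

/-- rank of the relations together with `T` -/
theorem finrank_add_card {F Ω : Type*} [Field F] [Field Ω] [Algebra F Ω] (z : Fin n → Ω)
    (hz : ∀ j, z j ≠ 0) (T : Finset (Fin n)) (hT : AlgebraicIndependent F (fun j : T => z j))
    (Λ : Submodule ℤ (Fin n → ℤ)) (hΛ : ∀ a ∈ Λ, ∃ m : ℕ, 0 < m ∧ chr z a ^ m = 1)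
    (Λ' : Submodule ℤ (Fin n → ℤ)) (h1 : Λ ≤ Λ') (h2 : ∀ j ∈ T, Pi.single j (1 : ℤ) ∈ Λ') :
    Module.finrank ℤ Λ + T.card ≤ Module.finrank ℤ Λ' := by
  classical
  let ψ : (Λ × (T → ℤ)) →ₗ[ℤ] (Fin n → ℤ) := Λ.subtype.coprod
    (Fintype.linearCombination ℤ (fun j : T => (Pi.single (j : Fin n) (1 : ℤ) : Fin n → ℤ)))
  have hψ : ∀ a e, ψ (a, e) = (a : Fin n → ℤ) +
      ∑ j : T, e j • (Pi.single (j : Fin n) (1 : ℤ) : Fin n → ℤ) := by
    intro a e
    simp [ψ, Fintype.linearCombination_apply]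
  have hinj : Function.Injective ψ := by
    rw [injective_iff_map_eq_zero]
    rintro ⟨a, e⟩ h
    rw [hψ] at h
    obtain ⟨m, hm, h3⟩ := hΛ a a.2
    have h4 : (-(a : Fin n → ℤ)) = ∑ j : T, e j • (Pi.single (j : Fin n) (1 : ℤ) : Fin n → ℤ) := by
      rw [neg_eq_iff_add_eq_zero]
      exact h
    have h5 : chr z (-(a : Fin n → ℤ)) ^ m = 1 := by
      have h6 : -(a : Fin n → ℤ) = (-1 : ℤ) • (a : Fin n → ℤ) := by simp
      rw [h6, chr_zsmul, zpow_neg_one, inv_pow, h3, inv_one]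
    rw [h4, chr_sum hz] at h5
    have h7 : ∀ j : T, chr z (e j • (Pi.single (j : Fin n) (1 : ℤ) : Fin n → ℤ)) =
        z j ^ e j := fun j => by rw [chr_zsmul, chr_single]
    simp only [h7] at h5
    have h8 := mult_indep (fun j : T => z j) hT e m hm h5
    have h9 : (a : Fin n → ℤ) = 0 := by
      rw [h8] at h4
      simpa using h4
    exact Prod.ext (Subtype.ext h9) h8
  have hrange : LinearMap.range ψ ≤ Λ' := by
    rintro _ ⟨⟨a, e⟩, rfl⟩
    rw [hψ]
    exact Λ'.add_mem (h1 a.2) (Λ'.sum_mem fun j _ => Λ'.smul_mem _ (h2 j j.2))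
  have h3 := LinearMap.finrank_range_of_inj hinj
  rw [Module.finrank_prod, Module.finrank_fintype_fun_eq_card, Fintype.card_coe] at h3
  rw [← h3]
  exact Submodule.finrank_mono hrange

/-- **Main theorem for generic points.** -/
theorem exists_class_pos {d : ℕ} (P : Ideal (MvPolynomial (Fin n) ℂ)) [P.IsPrime]
    (hd : Algebra.trdeg ℂ (MvPolynomial (Fin n) ℂ ⧸ P) = d) :
    ∃ (M : ℕ) (b : Fin n → ℕ), 0 < M ∧ (∀ j, 0 < b j ∧ b j ≤ M) ∧
      ∀ g : Fin n → ℤ, (∀ j, g j ≡ b j [ZMOD M]) → (∀ j, g j ≠ 0) ∧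
        ∀ (Ω : Type) [Field Ω] [Algebra ℂ Ω] (z : Fin n → Ω), (∀ j, z j ≠ 0) →
          (∀ f ∈ P, aeval (fun j => ((g j : ℤ) : Ω)⁻¹ * z j) f = 0) →
          ∀ T : Finset (Fin n), AlgebraicIndependent ℂ (fun j : T => z j) →
            (∀ j, IsAlgebraic (Algebra.adjoin ℂ (Set.range fun j : T => z j)) (z j)) →
            ∀ Λ : Submodule ℤ (Fin n → ℤ),
              (∀ a ∈ Λ, ∃ m : ℕ, 0 < m ∧ chr z a ^ m = 1) →
              Module.finrank ℤ Λ + T.card ≤ d := by
  classical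
  obtain ⟨M, b, hM, hb, hmain⟩ := exists_class P hd
  refine ⟨2 * M, b, by omega, fun j => ⟨(hb j).1, by have := (hb j).2; omega⟩, ?_⟩
  intro g hg
  have hgM : ∀ j, g j ≡ b j [ZMOD M] := fun j =>
    Int.ModEq.of_dvd (by push_cast; exact ⟨2, by ring⟩) (hg j)
  have hg0 : ∀ j, g j ≠ 0 := by
    intro j h0
    have h1 := hg j
    rw [h0] at h1
    have h2 : ((2 * M : ℕ) : ℤ) ∣ (b j : ℤ) := by
      have := Int.modEq_iff_dvd.1 h1
      simpa using this
    have h3 : 2 * M ∣ b j := by exact_mod_cast h2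
    have h4 := Nat.le_of_dvd (hb j).1 h3
    have h5 := (hb j).2
    omega
  refine ⟨hg0, ?_⟩
  intro Ω _ _ z hz hzP T hT halg Λ hΛ
  have hchar : CharZero Ω := charZero_of_injective_algebraMap (algebraMap ℂ Ω).injective
  set y : T → Ω := fun j => z j with hy
  -- relations
  have hrel : ∀ j : Fin n, ∃ (p : Polynomial Ω) (r s : MvPolynomial T ℂ), r ≠ 0 ∧ s ≠ 0 ∧
      p.coeff 0 = aeval y r ∧ p.leadingCoeff = aeval y s ∧
      (∀ k, ∃ t : MvPolynomial T ℂ, p.coeff k = aeval y t) ∧ p.eval (z j) = 0 := by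
    intro j
    obtain ⟨q, hq0, hq⟩ := (halg j).exists_nonzero_coeff_and_aeval_eq_zero
      (mem_nonZeroDivisors_of_ne_zero (hz j))
    set p : Polynomial Ω := q.map (algebraMap (Algebra.adjoin ℂ (Set.range y)) Ω) with hp
    have hcoef : ∀ k, ∃ t : MvPolynomial T ℂ, p.coeff k = aeval y t := by
      intro k
      rw [hp, Polynomial.coeff_map]
      have h1 : ((q.coeff k : Algebra.adjoin ℂ (Set.range y)) : Ω) ∈
          Algebra.adjoin ℂ (Set.range y) := (q.coeff k).2
      have h2 : ∀ x : Ω, x ∈ Algebra.adjoin ℂ (Set.range y) →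
          ∃ t : MvPolynomial T ℂ, aeval y t = x := by
        intro x hx
        rw [Algebra.adjoin_range_eq_range_aeval] at hx
        exact hx
      obtain ⟨t, ht⟩ := h2 _ h1
      exact ⟨t, ht.symm⟩
    have hinj : Function.Injective (algebraMap (Algebra.adjoin ℂ (Set.range y)) Ω) :=
      Subtype.val_injective
    have hpc0 : p.coeff 0 ≠ 0 := by
      rw [hp, Polynomial.coeff_map]
      intro h
      exact hq0 (hinj (by rw [h, map_zero]))
    have hpl : p.leadingCoeff ≠ 0 := by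
      rw [Polynomial.leadingCoeff_ne_zero]
      rintro h
      rw [h, Polynomial.coeff_zero] at hpc0
      exact hpc0 rfl
    obtain ⟨r, hr⟩ := hcoef 0
    obtain ⟨s, hs⟩ := hcoef p.natDegree
    refine ⟨p, r, s, ?_, ?_, hr, hs, hcoef, ?_⟩
    · rintro rfl
      rw [map_zero] at hr
      exact hpc0 hr
    · rintro rfl
      rw [map_zero] at hs
      exact hpl hs
    · rw [hp, Polynomial.eval_map]
      exact hq
  choose p r s hr hs hpr hps hpt hpz using hrel
  set h : MvPolynomial T ℂ := ∏ j, (r j * s j) with hh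
  have hh0 : h ≠ 0 := Finset.prod_ne_zero_iff.2 fun j _ => mul_ne_zero (hr j) (hs j)
  obtain ⟨ζ, hζ, hζh⟩ := exists_torsion_ne_zero h hh0
  have hζr : ∀ j, eval ζ (r j) ≠ 0 ∧ eval ζ (s j) ≠ 0 := by
    intro j
    rw [hh, map_prod, Finset.prod_ne_zero_iff] at hζh
    have := hζh j (Finset.mem_univ j)
    rw [map_mul] at this
    exact ⟨left_ne_zero_of_mul this, right_ne_zero_of_mul this⟩
  obtain ⟨W, hW1, hW2, hW3⟩ := exists_center y hT ζ
  have hvz : ∀ j, W.valuation (z j) = 1 := by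
    intro j
    refine val_eq_one_of_rel W (z j) (p j) ?_ ?_ ?_ (hpz j)
    · rw [hpr]
      exact hW3 _ (hζr j).1
    · rw [hps]
      exact hW3 _ (hζr j).2
    · intro k
      obtain ⟨t, ht⟩ := hpt j k
      rw [ht]
      exact hW1 t
  have hconst : ∀ c : ℂ, W.valuation (algebraMap ℂ Ω c) ≤ 1 := by
    intro c
    have := hW1 (C c)
    rwa [aeval_C] at this
  have hconst1 : ∀ c : ℂ, c ≠ 0 → W.valuation (algebraMap ℂ Ω c) = 1 := by
    intro c hc
    have := hW3 (C c) (by rwa [eval_C])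
    rwa [aeval_C] at this
  -- units of `W`
  have hunit : ∀ x : Ω, W.valuation x = 1 → ∃ u : Wˣ, ((u : W) : Ω) = x := by
    intro x hx
    have hx0 : x ≠ 0 := by
      rintro rfl
      rw [map_zero] at hx
      exact zero_ne_one hx
    have h1 : x ∈ W := (W.valuation_le_one_iff x).1 hx.le
    have h2 : x⁻¹ ∈ W := (W.valuation_le_one_iff _).1 (by rw [map_inv₀, hx, inv_one])
    exact ⟨⟨⟨x, h1⟩, ⟨x⁻¹, h2⟩, Subtype.ext (mul_inv_cancel₀ hx0),
      Subtype.ext (inv_mul_cancel₀ hx0)⟩, rfl⟩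
  choose u hu using fun j => hunit (z j) (hvz j)
  have hgint : ∀ j, W.valuation (((g j : ℤ) : Ω)⁻¹ * z j) = 1 := by
    intro j
    have h1 := hconst1 ((g j : ℤ) : ℂ) (by exact_mod_cast hg0 j)
    rw [map_intCast] at h1
    rw [map_mul, map_inv₀, h1, hvz, inv_one, one_mul]
  choose w hw using fun j => hunit _ (hgint j)
  let ιC : ℂ →+* W := (algebraMap ℂ Ω).codRestrict W.toSubring
    (fun c => (W.valuation_le_one_iff _).1 (hconst c))
  let ρ : W →+* IsLocalRing.ResidueField W := IsLocalRing.residue W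
  let _ : Algebra ℂ (IsLocalRing.ResidueField W) := (ρ.comp ιC).toAlgebra
  have hρne : ∀ v : Wˣ, ρ (v : W) ≠ 0 := fun v =>
    ((Units.map (ρ : W →* IsLocalRing.ResidueField W) v)).ne_zero
  have hPres : ∀ f ∈ P, aeval (fun j => ρ (w j : W)) f = 0 := by
    intro f hf
    have h1 : eval₂ ιC (fun j => (w j : W)) f = 0 := by
      have h2 : W.subtype (eval₂ ιC (fun j => (w j : W)) f) = 0 := by
        rw [eval₂_comp_left]
        have h3 := hzP f hf
        rw [aeval_def] at h3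
        rw [← h3]
        congr 1
        funext j
        exact hw j
      exact Subtype.ext h2
    have h4 : aeval (fun j => ρ (w j : W)) f = ρ (eval₂ ιC (fun j => (w j : W)) f) := by
      rw [aeval_def, eval₂_comp_left]
      rfl
    rw [h4, h1, map_zero]
  have hzbar : (fun j => ((g j : ℤ) : IsLocalRing.ResidueField W) * ρ (w j : W)) =
      fun j => ρ (u j : W) := by
    funext j
    rw [← map_intCast ρ, ← map_mul]
    congr 1
    apply Subtype.ext
    have hgj : (((g j : ℤ) : Ω)) ≠ 0 := by exact_mod_cast hg0 j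
    change ((g j : ℤ) : Ω) * ((w j : W) : Ω) = ((u j : W) : Ω)
    rw [hw, hu, mul_inv_cancel_left₀ hgj]
  have hzne : ∀ j, ρ (u j : W) ≠ 0 := fun j => hρne (u j)
  have hkey := hmain g hgM (IsLocalRing.ResidueField W) (fun j => ρ (w j : W))
    (fun j => hρne (w j)) hPres (torLat (fun j => ρ (u j : W)) hzne) (fun a ha => by
      rw [hzbar]
      exact ha)
  refine le_trans (finrank_add_card z hz T hT Λ hΛ _ ?_ ?_) hkey
  · intro a ha
    obtain ⟨m, hm, h1⟩ := hΛ a ha
    refine ⟨m, hm, ?_⟩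
    have h2 : z = fun j => W.subtype (u j : W) := funext fun j => (hu j).symm
    rw [h2, chr_units, ← map_pow] at h1
    have h3 : (((∏ j, u j ^ a j : Wˣ) : W)) ^ m = 1 := by
      apply Subtype.ext
      exact h1
    rw [chr_units, ← map_pow, h3, map_one]
  · intro j hj
    obtain ⟨m, hm, h1⟩ := hζ ⟨j, hj⟩
    refine ⟨m, hm, ?_⟩
    rw [chr_single]
    have h2 : ρ (u j : W) = ρ (ιC (ζ ⟨j, hj⟩)) := by
      have h3 : W.valuation (aeval y (X ⟨j, hj⟩ - C (ζ ⟨j, hj⟩) : MvPolynomial T ℂ)) < 1 :=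
        hW2 _ (by simp)
      have h4 : ((u j : W) - ιC (ζ ⟨j, hj⟩)) ∈ IsLocalRing.maximalIdeal W := by
        rw [ValuationSubring.valuation_lt_one_iff]
        convert h3 using 2
        rw [map_sub, aeval_X, aeval_C]
        change ((u j : W) : Ω) - algebraMap ℂ Ω (ζ ⟨j, hj⟩) = _
        rw [hu]
      rw [← sub_eq_zero, ← map_sub]
      exact (IsLocalRing.residue_eq_zero_iff _).2 h4
    rw [h2, ← map_pow, ← map_pow, h1, map_one, map_one]

end Pool.Agent.H173R3.ZT
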