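import Pool.Agent.H173R3.ZT.Gam
import Pool.Agent.H173R3.ZT.Count

/-!
# Version for coordinate rings
-/

set_option autoImplicit false

namespace Pool.Agent.H173R3.ZT

open MvPolynomial Filter

variable {n : ℕ}

/-- The main theorem for a domain generated by the coordinates `w`. -/
theorem exists_class_ring {d : ℕ} (P : Ideal (MvPolynomial (Fin n) ℂ)) [P.IsPrime]
    (hd : Algebra.trdeg ℂ (MvPolynomial (Fin n) ℂ ⧸ P) = d) (G₀ : Finset ℂˣ) :
    ∃ (M : ℕ) (b : Fin n → ℕ), 0 < M ∧ (∀ j, 0 < b j ∧ b j ≤ M) ∧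
      ∀ g : Fin n → ℤ, (∀ j, g j ≡ b j [ZMOD M]) → (∀ j, g j ≠ 0) ∧
        ∀ (B : Type) [CommRing B] [IsDomain B] [Algebra ℂ B] (w : Fin n → B), (∀ j, w j ≠ 0) →
          Algebra.adjoin ℂ (Set.range w) = ⊤ →
          (∀ f ∈ P, aeval (fun j => algebraMap ℂ B (((g j : ℤ) : ℂ)⁻¹) * w j) f = 0) →
            ∀ Λ : Submodule ℤ (Fin n → ℤ),
              (∀ a ∈ Λ, ∃ ε : ℂ, (∃ m : ℕ, 0 < m ∧ ∃ c ∈ Subgroup.closure (G₀ : Set ℂˣ),
                ε ^ m = (c : ℂ)) ∧
                ∏ i, w i ^ (a i).toNat = algebraMap ℂ B ε * ∏ i, w i ^ (-a i).toNat) →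
              Algebra.trdeg ℂ B + (Module.finrank ℤ Λ : Cardinal) ≤ (d : Cardinal) := by
  classical
  obtain ⟨M, b, hM, hb, h⟩ := exists_class_pos_G P hd G₀
  refine ⟨M, b, hM, hb, fun g hg => ?_⟩
  obtain ⟨hg0, hmain⟩ := h g hg
  refine ⟨hg0, ?_⟩
  intro B _ _ _ w hw hgen hP Λ hΛ
  let Ω := FractionRing B
  set z : Fin n → Ω := fun j => algebraMap B Ω (w j) with hzdef
  have hinjB : Function.Injective (algebraMap B Ω) := IsFractionRing.injective B Ω
  have hz0 : ∀ j, z j ≠ 0 := fun j h0 => hw j (hinjB (by rw [map_zero]; exact h0))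
  have hzV : ∀ f ∈ P, aeval (fun j => ((g j : ℤ) : Ω)⁻¹ * z j) f = 0 := by
    intro f hf
    have h1 := congrArg (algebraMap B Ω) (hP f hf)
    rw [map_zero] at h1
    rw [← h1]
    have h2 : (IsScalarTower.toAlgHom ℂ B Ω).comp
        (aeval (fun j => algebraMap ℂ B (((g j : ℤ) : ℂ)⁻¹) * w j)) =
        aeval (fun j => ((g j : ℤ) : Ω)⁻¹ * z j) := by
      ext i
      simp only [AlgHom.comp_apply, aeval_X, map_mul, hzdef]
      congr 1
      rw [AlgHom.commutes, map_inv₀, map_intCast]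
    exact (DFunLike.congr_fun h2 f).symm
  have hzL : ∀ a ∈ Λ, ∃ m : ℕ, 0 < m ∧ ∃ c ∈ Subgroup.closure (G₀ : Set ℂˣ),
      chr z a ^ m = algebraMap ℂ Ω (c : ℂ) := by
    intro a ha
    obtain ⟨ε, ⟨m, hm, c, hc, hεm⟩, h1⟩ := hΛ a ha
    refine ⟨m, hm, c, hc, ?_⟩
    have h4 := congrArg (algebraMap B Ω) h1
    rw [map_mul, ← IsScalarTower.algebraMap_apply ℂ B Ω] at h4
    have e1 : ∀ k : Fin n → ℕ, algebraMap B Ω (∏ i, w i ^ k i) = ∏ i, z i ^ k i := fun k => by
      rw [map_prod]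
      exact Finset.prod_congr rfl fun i _ => map_pow _ _ _
    rw [e1, e1] at h4
    have h5 : chr z a = algebraMap ℂ Ω ε := by
      have h7 : chr z a * ∏ i, z i ^ (-a i).toNat = ∏ i, z i ^ (a i).toNat := by
        rw [chr, ← Finset.prod_mul_distrib]
        refine Finset.prod_congr rfl fun i _ => ?_
        rw [← zpow_natCast, ← zpow_natCast, ← zpow_add₀ (hz0 i)]
        congr 1
        omega
      have h8 : (∏ i, z i ^ (-a i).toNat) ≠ 0 :=
        Finset.prod_ne_zero_iff.2 fun i _ => pow_ne_zero _ (hz0 i)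
      exact mul_right_cancel₀ h8 (h7.trans h4)
    rw [h5, ← map_pow, hεm]
  -- a transcendence basis among the coordinates
  have hadj : ∀ f : B, algebraMap B Ω f ∈ Algebra.adjoin ℂ (Set.range z) := by
    intro f
    have h1 : f ∈ Algebra.adjoin ℂ (Set.range w) := by rw [hgen]; exact Algebra.mem_top
    rw [Algebra.adjoin_range_eq_range_aeval] at h1
    obtain ⟨p, rfl⟩ := h1
    rw [Algebra.adjoin_range_eq_range_aeval]
    refine ⟨p, ?_⟩
    have h2 : (IsScalarTower.toAlgHom ℂ B Ω).comp (aeval w) = aeval z := by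
      ext i
      simp [hzdef]
    exact (DFunLike.congr_fun h2 p).symm
  have halg : Algebra.IsAlgebraic (Algebra.adjoin ℂ (Set.range z)) Ω := by
    refine ⟨fun ω => ?_⟩
    obtain ⟨p, q, hq, rfl⟩ := IsFractionRing.div_surjective (A := B) ω
    rw [div_eq_mul_inv]
    have hp' : IsAlgebraic (Algebra.adjoin ℂ (Set.range z)) (algebraMap B Ω p) :=
      isAlgebraic_algebraMap (⟨_, hadj p⟩ : Algebra.adjoin ℂ (Set.range z))
    have hq' : IsAlgebraic (Algebra.adjoin ℂ (Set.range z)) (algebraMap B Ω q) :=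
      isAlgebraic_algebraMap (⟨_, hadj q⟩ : Algebra.adjoin ℂ (Set.range z))
    exact hp'.mul hq'.inv
  obtain ⟨t, hts, ht⟩ := exists_isTranscendenceBasis_subset (R := ℂ) (Set.range z)
  have hc : ∀ e : t, ∃ j, z j = e := fun e => hts e.2
  choose c hc using hc
  have hcinj : Function.Injective c := by
    intro e e' hee
    exact Subtype.ext (by rw [← hc e, ← hc e', hee])
  have htfin : Finite t := Finite.of_injective c hcinj
  have : Fintype t := Fintype.ofFinite t
  set T : Finset (Fin n) := Finset.univ.image c with hT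
  have hTt : ∀ j : T, ∃ e : t, c e = j := by
    rintro ⟨j, hj⟩
    obtain ⟨e, -, he⟩ := Finset.mem_image.1 hj
    exact ⟨e, he⟩
  choose φ hφ using hTt
  have hφinj : Function.Injective φ := by
    intro j j' hjj
    exact Subtype.ext (by rw [← hφ j, ← hφ j', hjj])
  have hzφ : (fun j : T => z j) = (fun e : t => (e : Ω)) ∘ φ := by
    funext j
    simp only [Function.comp_apply]
    rw [← hc (φ j), hφ j]
  have hTind : AlgebraicIndependent ℂ (fun j : T => z j) := by
    rw [hzφ]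
    exact ht.1.comp φ hφinj
  have hTrange : Set.range (fun j : T => z j) = Set.range (fun e : t => (e : Ω)) := by
    ext w
    constructor
    · rintro ⟨j, rfl⟩
      exact ⟨φ j, (congrFun hzφ j).symm⟩
    · rintro ⟨e, rfl⟩
      refine ⟨⟨c e, Finset.mem_image_of_mem c (Finset.mem_univ e)⟩, hc e⟩
  have hTalg : ∀ j, IsAlgebraic (Algebra.adjoin ℂ (Set.range fun j : T => z j)) (z j) := by
    intro j
    rw [hTrange]
    exact ht.isAlgebraic.isAlgebraic (z j)
  have hkey := hmain Ω z hz0 hzV T hTind hTalg Λ hzL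
  have hdimA : Algebra.trdeg ℂ B ≤ (T.card : Cardinal) := by
    have h1 : Algebra.trdeg ℂ B ≤ Algebra.trdeg ℂ Ω :=
      trdeg_le_of_injective (IsScalarTower.toAlgHom ℂ B Ω) (IsFractionRing.injective B Ω)
    refine h1.trans (le_of_eq ?_)
    rw [← ht.cardinalMk_eq_trdeg, Cardinal.mk_fintype, hT,
      Finset.card_image_of_injective _ hcinj, Finset.card_univ]
  calc Algebra.trdeg ℂ B + (Module.finrank ℤ Λ : Cardinal)
      ≤ (T.card : Cardinal) + (Module.finrank ℤ Λ : Cardinal) := by gcongr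
    _ = ((Module.finrank ℤ Λ + T.card : ℕ) : Cardinal) := by push_cast; rw [add_comm]
    _ ≤ (d : Cardinal) := by exact_mod_cast hkey

end Pool.Agent.H173R3.ZT
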