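import Pool.Agent.H173R3.ZT.Fam

/-!
# Specialisation of generic points to points with torsion coordinates
-/

set_option autoImplicit false

namespace Pool.Agent.H173R3.ZT

open MvPolynomial Filter

/-- the characters with torsion value -/
def torLat {F : Type*} [Field F] {n : ℕ} (x : Fin n → F) (hx : ∀ i, x i ≠ 0) :
    Submodule ℤ (Fin n → ℤ) where
  carrier := {a | ∃ m : ℕ, 0 < m ∧ chr x a ^ m = 1}
  zero_mem' := ⟨1, one_pos, by rw [chr_zero, one_pow]⟩
  add_mem' := by
    rintro a b ⟨k, hk, ha⟩ ⟨l, hl, hb⟩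
    refine ⟨k * l, Nat.mul_pos hk hl, ?_⟩
    rw [chr_add hx, mul_pow, pow_mul, ha, one_pow, one_mul, mul_comm k l, pow_mul, hb, one_pow]
  smul_mem' := by
    rintro c a ⟨k, hk, ha⟩
    refine ⟨k, hk, ?_⟩
    rw [chr_zsmul, ← zpow_natCast, ← zpow_mul, mul_comm, zpow_mul, zpow_natCast, ha, one_zpow]

theorem mem_torLat {F : Type*} [Field F] {n : ℕ} {x : Fin n → F} {hx : ∀ i, x i ≠ 0}
    {a : Fin n → ℤ} : a ∈ torLat x hx ↔ ∃ m : ℕ, 0 < m ∧ chr x a ^ m = 1 := Iff.rfl

/-- algebraically independent elements are multiplicatively independent modulo torsion -/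
theorem mult_indep {F Ω ι : Type*} [Field F] [Field Ω] [Algebra F Ω] [Fintype ι] (y : ι → Ω)
    (hy : AlgebraicIndependent F y) (e : ι → ℤ) (m : ℕ) (hm : 0 < m)
    (h : (∏ i, y i ^ e i) ^ m = 1) : e = 0 := by
  classical
  have hy0 : ∀ i, y i ≠ 0 := fun i => hy.ne_zero i
  set α : ι →₀ ℕ := Finsupp.equivFunOnFinite.symm fun i => ((m : ℤ) * e i).toNat with hα
  set β : ι →₀ ℕ := Finsupp.equivFunOnFinite.symm fun i => (-((m : ℤ) * e i)).toNat with hβ
  have hαβ : ∀ i, (α i : ℤ) - (β i : ℤ) = m * e i := by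
    intro i
    change ((((m : ℤ) * e i).toNat : ℕ) : ℤ) - (((-((m : ℤ) * e i)).toNat : ℕ) : ℤ) = m * e i
    omega
  have h1 : (∏ i, y i ^ α i) = ∏ i, y i ^ β i := by
    have h2 : (∏ i, y i ^ α i) / (∏ i, y i ^ β i) = 1 := by
      rw [← Finset.prod_div_distrib, ← h, ← Finset.prod_pow]
      refine Finset.prod_congr rfl fun i _ => ?_
      rw [← zpow_natCast, ← zpow_natCast, ← zpow_natCast, ← zpow_sub₀ (hy0 i), hαβ, ← zpow_mul,
        mul_comm]
    have h3 : (∏ i, y i ^ β i) ≠ 0 := Finset.prod_ne_zero_iff.2 fun i _ => pow_ne_zero _ (hy0 i)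
    rwa [div_eq_one_iff_eq h3] at h2
  have h2 : aeval y (monomial α (1 : F)) = aeval y (monomial β (1 : F)) := by
    rw [aeval_monomial, aeval_monomial, map_one, one_mul, one_mul, Finsupp.prod_fintype,
      Finsupp.prod_fintype, h1]
    · intro i; exact pow_zero _
    · intro i; exact pow_zero _
  have h3 : monomial α (1 : F) = monomial β (1 : F) := hy h2
  have h4 : α = β := by
    rw [monomial_eq_monomial_iff] at h3
    rcases h3 with h3 | h3
    · exact h3.1
    · exact absurd h3.1 one_ne_zero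
  funext i
  have h5 := hαβ i
  rw [h4, sub_self] at h5
  have hm' : (m : ℤ) ≠ 0 := by exact_mod_cast hm.ne'
  exact (mul_eq_zero.1 h5.symm).resolve_left hm'

theorem exists_torsion_ne_zero {ι : Type*} [Finite ι] (h : MvPolynomial ι ℂ) (hh : h ≠ 0) :
    ∃ ζ : ι → ℂ, (∀ i, ∃ m : ℕ, 0 < m ∧ ζ i ^ m = 1) ∧ eval ζ h ≠ 0 := by
  classical
  by_contra hcon
  push Not at hcon
  apply hh
  refine MvPolynomial.funext_set (fun _ => {z : ℂ | ∃ m : ℕ, 0 < m ∧ z ^ m = 1}) (fun _ => ?_) ?_
  · refine Set.infinite_of_injective_forall_mem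
      (f := fun k : ℕ => Complex.exp (2 * Real.pi * Complex.I / ((k + 1 : ℕ) : ℂ))) ?_ ?_
    · intro k l hkl
      have hk := Complex.isPrimitiveRoot_exp (k + 1) (Nat.succ_ne_zero k)
      have hl := Complex.isPrimitiveRoot_exp (l + 1) (Nat.succ_ne_zero l)
      have hkl' : Complex.exp (2 * Real.pi * Complex.I / ((k + 1 : ℕ) : ℂ)) =
        Complex.exp (2 * Real.pi * Complex.I / ((l + 1 : ℕ) : ℂ)) := hkl
      rw [hkl'] at hk
      have := hk.unique hl
      omega
    · intro k
      exact ⟨k + 1, Nat.succ_pos k,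
        (Complex.isPrimitiveRoot_exp (k + 1) (Nat.succ_ne_zero k)).pow_eq_one⟩
  · intro x hx
    rw [map_zero]
    exact hcon x fun i => hx i (Set.mem_univ i)

/-- a valuation ring centred at `y = ζ` -/
theorem exists_center {Ω ι : Type*} [Field Ω] [Algebra ℂ Ω] (y : ι → Ω)
    (hy : AlgebraicIndependent ℂ y) (ζ : ι → ℂ) :
    ∃ W : ValuationSubring Ω, (∀ r : MvPolynomial ι ℂ, W.valuation (aeval y r) ≤ 1) ∧
      (∀ r : MvPolynomial ι ℂ, eval ζ r = 0 → W.valuation (aeval y r) < 1) ∧
      (∀ r : MvPolynomial ι ℂ, eval ζ r ≠ 0 → W.valuation (aeval y r) = 1) := by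
  set e : MvPolynomial ι ℂ →+* Ω := (aeval y : MvPolynomial ι ℂ →ₐ[ℂ] Ω).toRingHom with he
  have heinj : Function.Injective e := hy
  let e' : MvPolynomial ι ℂ →+* e.range := e.rangeRestrict
  have hsurj : Function.Surjective e' := e.rangeRestrict_surjective
  have hinj : Function.Injective e' := fun a b h => heinj (congrArg Subtype.val h)
  let I : Ideal e.range := (RingHom.ker (eval ζ : MvPolynomial ι ℂ →+* ℂ)).map e'
  have hI : I ≠ ⊤ := by
    intro h
    have h1 : (1 : e.range) ∈ I := h ▸ Submodule.mem_top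
    rw [Ideal.mem_map_iff_of_surjective e' hsurj] at h1
    obtain ⟨x, hx, hx1⟩ := h1
    have h2 : x = 1 := hinj (by rw [hx1, map_one])
    rw [h2, RingHom.mem_ker, map_one] at hx
    exact one_ne_zero hx
  obtain ⟨W, hW, hnon⟩ := Ideal.image_subset_nonunits_valuationSubring I hI
  have h1 : ∀ r : MvPolynomial ι ℂ, W.valuation (aeval y r) ≤ 1 := fun r =>
    (W.valuation_le_one_iff _).2 (hW ⟨r, rfl⟩)
  have h2 : ∀ r : MvPolynomial ι ℂ, eval ζ r = 0 → W.valuation (aeval y r) < 1 := by
    intro r hr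
    exact hnon ⟨e' r, Ideal.mem_map_of_mem _ (by rwa [RingHom.mem_ker]), rfl⟩
  refine ⟨W, h1, h2, ?_⟩
  intro r hr
  have h3 : aeval y r = aeval y (C (eval ζ r)) + aeval y (r - C (eval ζ r)) := by
    rw [← map_add, add_sub_cancel]
  have h4 : W.valuation (aeval y (r - C (eval ζ r))) < 1 := h2 _ (by simp)
  have h5 : W.valuation (aeval y (C (eval ζ r) : MvPolynomial ι ℂ)) = 1 := by
    refine le_antisymm (h1 _) ?_
    have h6 := h1 (C (eval ζ r)⁻¹)
    have h7 : W.valuation (aeval y (C (eval ζ r) : MvPolynomial ι ℂ)) *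
        W.valuation (aeval y (C (eval ζ r)⁻¹ : MvPolynomial ι ℂ)) = 1 := by
      rw [← map_mul, ← map_mul, ← C_mul, mul_inv_cancel₀ hr, C_1, map_one, map_one]
    calc (1 : _) = _ := h7.symm
      _ ≤ W.valuation (aeval y (C (eval ζ r) : MvPolynomial ι ℂ)) * 1 := by gcongr
      _ = _ := mul_one _
  rw [h3, Valuation.map_add_eq_of_lt_left, h5]
  rw [h5]
  exact h4

theorem val_eq_one_of_rel {Ω : Type*} [Field Ω] (W : ValuationSubring Ω) (z : Ω)
    (p : Polynomial Ω) (h0 : W.valuation (p.coeff 0) = 1) (hl : W.valuation p.leadingCoeff = 1)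
    (hc : ∀ k, W.valuation (p.coeff k) ≤ 1) (hz : p.eval z = 0) : W.valuation z = 1 := by
  classical
  rw [Polynomial.eval_eq_sum_range] at hz
  rcases lt_trichotomy (W.valuation z) 1 with h | h | h
  · exfalso
    have h1 := W.valuation.map_sum_eq_of_lt (s := Finset.range (p.natDegree + 1))
      (f := fun k => p.coeff k * z ^ k) (j := 0) (by simp) (by
        intro k hk
        rw [Finset.mem_sdiff, Finset.mem_singleton] at hk
        rw [map_mul, map_mul, h0, pow_zero, map_one, one_mul, map_pow]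
        calc W.valuation (p.coeff k) * W.valuation z ^ k ≤ 1 * W.valuation z ^ k := by
              gcongr; exact hc k
          _ = W.valuation z ^ k := one_mul _
          _ < 1 := pow_lt_one₀ zero_le h hk.2)
    rw [hz, map_zero, map_mul, h0, pow_zero, map_one, one_mul] at h1
    exact zero_ne_one h1
  · exact h
  · exfalso
    have hz0 : W.valuation z ≠ 0 := (zero_lt_one.trans h).ne'
    have h1 := W.valuation.map_sum_eq_of_lt (s := Finset.range (p.natDegree + 1))
      (f := fun k => p.coeff k * z ^ k) (j := p.natDegree) (by simp) (by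
        intro k hk
        rw [Finset.mem_sdiff, Finset.mem_singleton, Finset.mem_range] at hk
        have hkn : k < p.natDegree := by omega
        rw [map_mul, map_mul, Polynomial.coeff_natDegree, hl, one_mul, map_pow, map_pow]
        calc W.valuation (p.coeff k) * W.valuation z ^ k ≤ 1 * W.valuation z ^ k := by
              gcongr; exact hc k
          _ = W.valuation z ^ k := one_mul _
          _ < W.valuation z ^ p.natDegree := pow_lt_pow_right₀ h hkn)
    rw [hz, map_zero, map_mul, Polynomial.coeff_natDegree, hl, one_mul, map_pow] at h1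
    exact pow_ne_zero _ hz0 h1.symm

end Pool.Agent.H173R3.ZT
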