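import Pool.Agent.H173R3.ZT.Val

/-!
# Relations among the valuations of the coordinates of a point on a variety
-/

set_option autoImplicit false

namespace Pool.Agent.H173R3.ZT

open MvPolynomial

variable {F : Type*} [Field F] {n : ℕ}

/-- the character `x ^ a` -/
def chr (x : Fin n → F) (a : Fin n → ℤ) : F := ∏ i, x i ^ a i

theorem chr_ne_zero {x : Fin n → F} (hx : ∀ i, x i ≠ 0) (a : Fin n → ℤ) : chr x a ≠ 0 :=
  Finset.prod_ne_zero_iff.2 fun i _ => zpow_ne_zero _ (hx i)

theorem chr_zero (x : Fin n → F) : chr x 0 = 1 := by simp [chr]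

theorem chr_add {x : Fin n → F} (hx : ∀ i, x i ≠ 0) (a b : Fin n → ℤ) :
    chr x (a + b) = chr x a * chr x b := by
  simp only [chr, Pi.add_apply]
  rw [← Finset.prod_mul_distrib]
  exact Finset.prod_congr rfl fun i _ => zpow_add₀ (hx i) _ _

theorem chr_sub {x : Fin n → F} (hx : ∀ i, x i ≠ 0) (a b : Fin n → ℤ) :
    chr x (a - b) = chr x a / chr x b := by
  rw [eq_div_iff (chr_ne_zero hx b), ← chr_add hx, sub_add_cancel]

theorem chr_zsmul {x : Fin n → F} (k : ℤ) (a : Fin n → ℤ) :
    chr x (k • a) = chr x a ^ k := by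
  simp only [chr, Pi.smul_apply, smul_eq_mul]
  rw [← Finset.prod_zpow]
  exact Finset.prod_congr rfl fun i _ => by rw [mul_comm, zpow_mul]

theorem chr_mul (x y : Fin n → F) (a : Fin n → ℤ) :
    chr (fun i => x i * y i) a = chr x a * chr y a := by
  simp only [chr]
  rw [← Finset.prod_mul_distrib]
  exact Finset.prod_congr rfl fun i _ => mul_zpow _ _ _

/-- the lattice of characters with value of valuation `1` -/
def vlat (O : ValuationSubring F) (x : Fin n → F) (hx : ∀ i, x i ≠ 0) :
    Submodule ℤ (Fin n → ℤ) where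
  carrier := {a | O.valuation (chr x a) = 1}
  zero_mem' := by
    change O.valuation (chr x 0) = 1
    rw [chr_zero, map_one]
  add_mem' := by
    intro a b ha hb
    change O.valuation (chr x (a + b)) = 1
    rw [chr_add hx, map_mul, ha, hb, one_mul]
  smul_mem' := by
    intro k a ha
    change O.valuation (chr x (k • a)) = 1
    rw [chr_zsmul, map_zpow₀, ha, one_zpow]

theorem mem_vlat {O : ValuationSubring F} {x : Fin n → F} {hx : ∀ i, x i ≠ 0}
    {a : Fin n → ℤ} : a ∈ vlat O x hx ↔ O.valuation (chr x a) = 1 := Iff.rfl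

/-- the integer vector of an exponent -/
def iv (α : Fin n →₀ ℕ) : Fin n → ℤ := fun i => (α i : ℤ)

theorem chr_iv (x : Fin n → F) (α : Fin n →₀ ℕ) : chr x (iv α) = ∏ i, x i ^ α i := by
  simp [chr, iv]

/-- **Tropical relation.** If a nonzero polynomial with unit coefficients vanishes at `x`, then
two of its monomials have the same valuation at `x`. -/
theorem exists_pair (O : ValuationSubring F) (x : Fin n → F) (hx : ∀ i, x i ≠ 0)
    (f : MvPolynomial (Fin n) F) (hf : f ≠ 0)
    (hc : ∀ α ∈ f.support, O.valuation (f.coeff α) = 1) (h0 : eval x f = 0) :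
    ∃ α ∈ f.support, ∃ β ∈ f.support, α ≠ β ∧ iv α - iv β ∈ vlat O x hx := by
  classical
  by_contra hcon
  push Not at hcon
  have hne : f.support.Nonempty := by
    rwa [Finset.nonempty_iff_ne_empty, Ne, MvPolynomial.support_eq_empty]
  obtain ⟨α, hα, hmax⟩ := Finset.exists_max_image f.support
    (fun α => O.valuation (chr x (iv α))) hne
  have hlt : ∀ β ∈ f.support \ {α}, O.valuation (f.coeff β * ∏ i, x i ^ β i) <
      O.valuation (f.coeff α * ∏ i, x i ^ α i) := by
    intro β hβ
    rw [Finset.mem_sdiff, Finset.mem_singleton] at hβ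
    rw [map_mul, map_mul, hc β hβ.1, hc α hα, one_mul, one_mul, ← chr_iv, ← chr_iv]
    refine lt_of_le_of_ne (hmax β hβ.1) fun he => hcon β hβ.1 α hα hβ.2 ?_
    rw [mem_vlat, chr_sub hx, map_div₀, he, div_self]
    exact (Valuation.ne_zero_iff _).2 (chr_ne_zero hx _)
  have hne0 : O.valuation (f.coeff α * ∏ i, x i ^ α i) ≠ 0 := by
    rw [map_mul, hc α hα, one_mul, ← chr_iv]
    exact (Valuation.ne_zero_iff _).2 (chr_ne_zero hx _)
  have h1 := O.valuation.map_sum_eq_of_lt (s := f.support)
    (f := fun β => f.coeff β * ∏ i, x i ^ β i) (j := α) hα hlt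
  rw [eval_eq'] at h0
  rw [h0, map_zero] at h1
  exact hne0 h1.symm

end Pool.Agent.H173R3.ZT
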