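import Mathlib

/-!
# Valuation rings of a field of characteristic zero above large primes
-/

set_option autoImplicit false

namespace Pool.Agent.H173R3.ZT

open MvPolynomial

theorem jac_int : IsJacobsonRing ℤ := by
  rw [isJacobsonRing_iff_prime_eq]
  intro P hP
  by_cases h : P = ⊥
  · subst h
    rw [eq_bot_iff]
    intro x hx
    rw [Ideal.mem_jacobson_bot] at hx
    have h1 := hx x
    rw [Int.isUnit_iff] at h1
    rw [Ideal.mem_bot]
    rcases h1 with h1 | h1
    · have : x * x = 0 := by linarith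
      exact mul_self_eq_zero.1 this
    · exfalso
      nlinarith [mul_self_nonneg x]
  · have : P.IsMaximal := IsPrime.to_maximal_ideal h
    exact Ideal.jacobson_eq_self_of_isMaximal

/-- In a finitely generated ring of characteristic zero inside a field, with a given integer
inverted, some prime number is in a maximal ideal. -/
theorem exists_prime_maximal {F : Type*} [Field F] [CharZero F] (s : Finset F) (N : ℕ) :
    ∃ (A : Subring F) (M : Ideal A) (q : ℕ), M ≠ ⊤ ∧ q.Prime ∧ N < q ∧
      (∀ u ∈ s, u ∈ A) ∧ ∀ (h : (q : F) ∈ A), (⟨(q : F), h⟩ : A) ∈ M := by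
  classical
  set S : Set F := ↑s ∪ {((N.factorial : ℕ) : F)⁻¹} with hS
  have hfin : S.Finite := (Finset.finite_toSet s).union (Set.finite_singleton _)
  set B : Subalgebra ℤ F := Algebra.adjoin ℤ S with hB
  have hft : Algebra.FiniteType ℤ B :=
    (Subalgebra.fg_iff_finiteType B).1 (Subalgebra.fg_def.2 ⟨S, hfin, rfl⟩)
  obtain ⟨M, hM⟩ := Ideal.exists_maximal B
  let _ : Field (B ⧸ M) := Ideal.Quotient.field M
  have hft2 : Algebra.FiniteType ℤ (B ⧸ M) := inferInstance
  have hjac : IsJacobsonRing ℤ := jac_int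
  have hfin2 : Module.Finite ℤ (B ⧸ M) := finite_of_finite_type_of_isJacobsonRing ℤ (B ⧸ M)
  obtain ⟨q, hq⟩ := CharP.exists (B ⧸ M)
  have hq0 : q ≠ 0 := by
    rintro rfl
    have hc : CharZero (B ⧸ M) := CharP.charP_to_charZero _
    have hint : Algebra.IsIntegral ℤ (B ⧸ M) := inferInstance
    have hinj : Function.Injective (algebraMap ℤ (B ⧸ M)) := by
      intro a b h
      simpa using h
    exact Int.not_isField (isField_of_isIntegral_of_isField hinj (Field.toIsField _))
  have hqp : q.Prime := (CharP.char_is_prime_or_zero (B ⧸ M) q).resolve_right hq0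
  have hqM : ((q : ℕ) : B) ∈ M := by
    rw [← Ideal.Quotient.eq_zero_iff_mem, map_natCast]
    exact CharP.cast_eq_zero _ _
  refine ⟨B.toSubring, M, q, hM.ne_top, hqp, ?_, ?_, ?_⟩
  · by_contra hcon
    have h1 : q ∣ N.factorial := hqp.dvd_factorial.2 (not_lt.1 hcon)
    obtain ⟨k, hk⟩ := h1
    have hmem : ((N.factorial : ℕ) : F)⁻¹ ∈ B := Algebra.subset_adjoin (Or.inr rfl)
    have h2 : (1 : B) ∈ M := by
      have h3 : (1 : B) = ((q : ℕ) : B) * (((k : ℕ) : B) * ⟨_, hmem⟩) := by
        apply Subtype.ext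
        have hN : ((N.factorial : ℕ) : F) ≠ 0 := Nat.cast_ne_zero.2 (Nat.factorial_ne_zero N)
        have h4 : ((q : ℕ) : F) * (((k : ℕ) : F)) = ((N.factorial : ℕ) : F) := by
          rw [hk]; push_cast; ring
        change (1 : F) = ((q : ℕ) : F) * (((k : ℕ) : F) * ((N.factorial : ℕ) : F)⁻¹)
        rw [← mul_assoc, h4, mul_inv_cancel₀ hN]
      rw [h3]
      exact M.mul_mem_right _ hqM
    exact hM.ne_top ((Ideal.eq_top_iff_one M).2 h2)
  · intro u hu
    exact Algebra.subset_adjoin (Or.inl hu)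
  · intro h
    exact hqM

/-- A valuation ring of `F` above a large prime `q` in which given nonzero elements are units. -/
theorem exists_valuationSubring {F : Type*} [Field F] [CharZero F] (s : Finset F) (N : ℕ) :
    ∃ (O : ValuationSubring F) (q : ℕ), q.Prime ∧ N < q ∧ O.valuation (q : F) < 1 ∧
      ∀ u ∈ s, u ≠ 0 → O.valuation u = 1 := by
  classical
  obtain ⟨A, M, q, hM, hq, hN, hA, hqM⟩ := exists_prime_maximal (s ∪ s.image fun u => u⁻¹) N
  obtain ⟨O, hO, hnon⟩ := Ideal.image_subset_nonunits_valuationSubring M hM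
  refine ⟨O, q, hq, hN, ?_, ?_⟩
  · have h1 : (q : F) ∈ A := natCast_mem A q
    have h2 : (q : F) ∈ O.nonunits := hnon ⟨⟨(q : F), h1⟩, hqM h1, rfl⟩
    exact h2
  · intro u hu hu0
    have h1 : u ∈ O := hO (hA u (Finset.mem_union_left _ hu))
    have h2 : u⁻¹ ∈ O := hO (hA u⁻¹ (Finset.mem_union_right _ (Finset.mem_image_of_mem _ hu)))
    have h3 : O.valuation u ≤ 1 := (O.valuation_le_one_iff u).2 h1
    have h4 : O.valuation u⁻¹ ≤ 1 := (O.valuation_le_one_iff _).2 h2
    refine le_antisymm h3 ?_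
    have h5 : O.valuation u * O.valuation u⁻¹ = 1 := by
      rw [← map_mul, mul_inv_cancel₀ hu0, map_one]
    calc (1 : _) = O.valuation u * O.valuation u⁻¹ := h5.symm
      _ ≤ O.valuation u * 1 := by gcongr
      _ = O.valuation u := mul_one _

end Pool.Agent.H173R3.ZT
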